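import Pool.Agent.helper98.Rat.Family

/-!
# Free values off the unit circle: the Julia set lives in a thin annulus
-/

set_option autoImplicit false

open Polynomial Topology Filter MeasureTheory Set Metric

namespace Pool.Agent.helper98.Rat

variable {P Q : ℂ[X]}

lemma end_false {p q : ℂ → ℂ} {K r t δ R₀ : ℝ}
    (hprop : ∀ x : ℂ, ‖x‖ ≤ r → q x ≠ 0 →
      (q 0 = 0 ∧ R₀ + 3 ≤ ‖p x / q x‖) ∨ (q 0 ≠ 0 ∧ ‖p x / q x - p 0 / q 0‖ ≤ K * ‖x‖))
    (hK : 0 < K) (htr : t ≤ r) (hKt : K * t < δ / 2) (hδ : δ ≤ 1 / 2) {x c u : ℂ}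
    (hx : ‖x‖ ≤ t) (hq : q x ≠ 0) (hu : p x / q x + c = u) (hc : ‖c‖ ≤ R₀)
    (hu1 : |‖u‖ - 1| ≤ 3 / 2 * δ) (hv : q 0 ≠ 0 → 2 * δ ≤ |‖c + p 0 / q 0‖ - 1|) : False := by
  have hu2 := abs_le.1 hu1
  rcases hprop x (hx.trans htr) hq with ⟨-, h1⟩ | ⟨h0, h1⟩
  · have h2 : p x / q x = u - c := by rw [← hu]; ring
    rw [h2] at h1
    have h3 := norm_sub_le u c
    linarith [hu2.2]
  · have h2 := hv h0
    have h3 : p x / q x - p 0 / q 0 = u - (c + p 0 / q 0) := by rw [← hu]; ring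
    rw [h3] at h1
    have h4 : K * ‖x‖ ≤ K * t := by gcongr
    have h5 := abs_norm_sub_norm_le u (c + p 0 / q 0)
    have h6 : |‖c + p 0 / q 0‖ - 1| ≤ |‖u‖ - ‖c + p 0 / q 0‖| + |‖u‖ - 1| := by
      have : ‖c + p 0 / q 0‖ - 1 = (‖u‖ - 1) - (‖u‖ - ‖c + p 0 / q 0‖) := by ring
      rw [this]
      have := abs_sub (‖u‖ - 1) (‖u‖ - ‖c + p 0 / q 0‖)
      linarith
    linarith

lemma pow_inner {z : ℂ} {η L : ℝ} {n : ℕ} (hη1 : η ≤ 1) (hnη : (n : ℝ) * η = 4 * L) (hL : 0 ≤ L)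
    (hz : ‖z‖ ≤ 1 - η) : ‖z ^ n‖ ≤ Real.exp (-(2 * L)) := by
  rw [norm_pow]
  calc ‖z‖ ^ n ≤ (1 - η) ^ n := by gcongr
    _ ≤ Real.exp (-η) ^ n :=
        pow_le_pow_left₀ (by linarith) (Real.one_sub_le_exp_neg η) n
    _ = Real.exp (-(4 * L)) := by rw [← Real.exp_nat_mul]; congr 1; linarith
    _ ≤ _ := Real.exp_le_exp.2 (by linarith)

lemma pow_outer {z : ℂ} {η L : ℝ} {n : ℕ} (hη0 : 0 ≤ η) (hη1 : η ≤ 1)
    (hnη : (n : ℝ) * η = 4 * L) (hz : 1 + η ≤ ‖z‖) : ‖(z ^ n)⁻¹‖ ≤ Real.exp (-(2 * L)) := by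
  rw [norm_inv, norm_pow]
  have h1 : Real.exp (η / 2) ≤ 1 + η := by
    have h2 := Real.one_sub_le_exp_neg (η / 2)
    have h3 : 0 < Real.exp (η / 2) := Real.exp_pos _
    have h4 : Real.exp (η / 2) * Real.exp (-(η / 2)) = 1 := by
      rw [← Real.exp_add]; simp
    have h5 : Real.exp (η / 2) * (1 - η / 2) ≤ 1 :=
      (mul_le_mul_of_nonneg_left h2 h3.le).trans h4.le
    have h6 : 1 ≤ (1 - η / 2) * (1 + η) := by nlinarith
    have h7 : 0 < 1 - η / 2 := by linarith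
    by_contra hcon
    rw [not_le] at hcon
    nlinarith
  rw [show -(2 * L) = -((n : ℝ) * (η / 2)) by linarith, Real.exp_neg, Real.exp_nat_mul]
  apply inv_anti₀ (by positivity)
  gcongr
  exact h1.trans hz

/-- Parameters such that all free values stay away from the unit circle. -/
theorem volume_zero_annulus (h : IsCoprime P Q) (R₀ : ℝ) :
    ∀ᶠ n : ℕ in atTop, ∀ c : ℂ, ‖c‖ ≤ R₀ →
      (∀ v ∈ freeValues P Q, 2048 * Real.log n / n ≤ |‖c + v‖ - 1|) →
      volume (planarJulia (powFamily P Q n c)) = 0 := by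
  have hred := reduced_of_isCoprime h
  obtain ⟨K₀, hK₀, r₀, hr₀, hp₀⟩ := quotient_near_zero (p := fun x => P.eval x)
    (q := fun x => Q.eval x) P.differentiable.differentiableAt Q.differentiable.differentiableAt
    (hred.fin 0) (R₀ + 3)
  obtain ⟨K₁, hK₁, r₁, hr₁, hp₁⟩ := quotient_near_zero (p := fun x => hom (dg P Q) P 1 x)
    (q := fun x => hom (dg P Q) Q 1 x) (hom_differentiable _ _).differentiableAt
    (hom_differentiable _ _).differentiableAt
    (by simpa [hom_zero_right] using hred.top) (R₀ + 3)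
  have hlim0 : Tendsto (fun n : ℕ => Real.log n / n) atTop (𝓝 0) := by
    have := Real.isLittleO_log_id_atTop.tendsto_div_nhds_zero
    exact this.comp tendsto_natCast_atTop_atTop
  have hinv : Tendsto (fun n : ℕ => ((n : ℝ))⁻¹) atTop (𝓝 0) := tendsto_inv_atTop_nhds_zero_nat
  have e0 : ∀ᶠ n : ℕ in atTop, Real.log n / n < 1 / 2048 :=
    hlim0.eventually_lt_const (by norm_num)
  have e1 : ∀ᶠ n : ℕ in atTop, ((n : ℝ))⁻¹ < min (min r₀ r₁) (min (1 / K₀) (1 / K₁)) :=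
    hinv.eventually_lt_const (by positivity)
  filter_upwards [e0, e1, eventually_ge_atTop 3] with n hn0 hn1 hn3 c hc hv
  have hnpos : 0 < n := by omega
  have hn : (3 : ℝ) ≤ n := by exact_mod_cast hn3
  have hn' : (0 : ℝ) < n := by linarith
  set L : ℝ := Real.log n with hL
  have hL1 : 1 ≤ L := by
    rw [hL, Real.le_log_iff_exp_le hn']
    have := Real.exp_one_lt_d9
    linarith
  set t : ℝ := Real.exp (-(2 * L)) with ht
  have htn : t = (n : ℝ)⁻¹ * (n : ℝ)⁻¹ := by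
    rw [ht, show -(2 * L) = -L + -L by ring, Real.exp_add, Real.exp_neg, hL, Real.exp_log hn']
  have hninv : 0 < (n : ℝ)⁻¹ := by positivity
  have hninv1 : (n : ℝ)⁻¹ ≤ 1 := by
    rw [inv_le_one₀ hn']; linarith
  have htinv : t ≤ (n : ℝ)⁻¹ := by rw [htn]; nlinarith
  obtain ⟨hm1, hm2⟩ := lt_min_iff.1 hn1
  obtain ⟨hm3, hm4⟩ := lt_min_iff.1 hm1
  obtain ⟨hm5, hm6⟩ := lt_min_iff.1 hm2
  set η : ℝ := 4 * L / n with hη
  set δ : ℝ := 1024 * L / n with hδ
  have hη0 : 0 < η := by positivity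
  have hδη : δ = 256 * η := by rw [hδ, hη]; ring
  have hδ2 : δ ≤ 1 / 2 := by
    rw [hδ, mul_div_assoc]; linarith
  have hδ0 : 0 < δ := by positivity
  have hη1 : η ≤ 1 / 512 := by linarith
  have hnη : (n : ℝ) * η = 4 * L := by rw [hη]; field_simp
  have hKt : ∀ K, 0 < K → (n : ℝ)⁻¹ < 1 / K → K * t < δ / 2 := by
    intro K hK hKn
    rw [lt_div_iff₀ hK] at hKn
    have h1 : K * t < (n : ℝ)⁻¹ := by
      rw [htn]
      calc K * ((n : ℝ)⁻¹ * (n : ℝ)⁻¹) = ((n : ℝ)⁻¹ * K) * (n : ℝ)⁻¹ := by ring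
        _ < 1 * (n : ℝ)⁻¹ := by gcongr
        _ = (n : ℝ)⁻¹ := one_mul _
    have h2 : (n : ℝ)⁻¹ ≤ δ / 2 := by
      rw [hδ, inv_eq_one_div, div_div, div_le_div_iff₀ hn' (by positivity)]
      nlinarith
    linarith
  have hv' : ∀ v ∈ freeValues P Q, 2 * δ ≤ |‖c + v‖ - 1| := by
    intro v hvV
    have := hv v hvV
    rw [hδ]
    calc 2 * (1024 * L / n) = 2048 * L / n := by ring
      _ ≤ _ := this
  -- preimages of points near the unit circle are very close to the unit circle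
  have key : ∀ z u : ℂ, powFamily P Q n c (OnePoint.some z) = OnePoint.some u →
      |‖u‖ - 1| ≤ 3 / 2 * δ → 1 - η ≤ ‖z‖ ∧ ‖z‖ ≤ 1 + η := by
    intro z u hz hu
    obtain ⟨hq, hval⟩ := powFamily_some_iff.1 hz
    constructor
    · by_contra hcon
      rw [not_le] at hcon
      refine end_false hp₀ hK₀ (htinv.trans hm3.le) (hKt K₀ hK₀ hm5) hδ2 (x := z ^ n) (c := c)
        (u := u) (pow_inner (by linarith) hnη (by linarith) hcon.le) hq hval hc hu ?_
      intro h0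
      apply hv'
      right; left
      rw [ratMap_eq_some_iff, toPlane_ratMap]
      exact ⟨h0, rfl⟩
    · by_contra hcon
      rw [not_le] at hcon
      have hz0 : z ≠ 0 := by
        intro h0; rw [h0, norm_zero] at hcon; linarith
      have hzn : z ^ n ≠ 0 := pow_ne_zero _ hz0
      refine end_false hp₁ hK₁ (htinv.trans hm4.le) (hKt K₁ hK₁ hm6) hδ2 (x := (z ^ n)⁻¹)
        (c := c) (u := u) (pow_outer hη0.le (by linarith) hnη hcon.le) (hom_ne_zero hzn hq)
        ?_ hc hu ?_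
      · rw [← div_eq_hom hzn]; exact hval
      · intro h0
        apply hv'
        right; right
        rw [ratMap_infty]
        simp only [hom_zero_right, one_pow, mul_one] at h0 ⊢
        rw [mk_of_ne h0]
  have hAδ : ∀ y u : ℂ, (1 - δ ≤ ‖y‖ ∧ ‖y‖ ≤ 1 + δ) → ‖u - y‖ ≤ δ / 2 →
      |‖u‖ - 1| ≤ 3 / 2 * δ := by
    intro y u hy hu
    have h1 := abs_le.1 ((abs_norm_sub_norm_le u y).trans hu)
    rw [abs_le]
    constructor
    · linarith [h1.1, hy.1]
    · linarith [h1.2, hy.2]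
  have hnotfree : ∀ u : ℂ, |‖u‖ - 1| ≤ 3 / 2 * δ → u - c ∉ freeValues P Q := by
    intro u hu hcon
    have := hv' _ hcon
    rw [add_sub_cancel] at this
    linarith
  set A : Set ℂ := {z | 1 - δ ≤ ‖z‖ ∧ ‖z‖ ≤ 1 + δ} with hA
  have hAcl : IsClosed A :=
    (isClosed_le continuous_const continuous_norm).inter
      (isClosed_le continuous_norm continuous_const)
  have hAc : IsCompact A := by
    apply (isCompact_closedBall (0 : ℂ) (1 + δ)).of_isClosed_subset hAcl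
    intro z hz
    rw [mem_closedBall, dist_zero_right]; exact hz.2
  refine volume_planarJulia_eq_zero (reduced_powFamily h) hAc (ρ := δ / 2) (by positivity)
    ⟨1, δ, hδ0, ?_⟩ ?_ ?_ ?_
  · intro z hz
    rw [mem_ball, dist_eq_norm] at hz
    have h1 := abs_norm_sub_norm_le z 1
    rw [norm_one] at h1
    have h2 := abs_le.1 (h1.trans hz.le)
    exact ⟨by linarith [h2.1], by linarith [h2.2]⟩
  · intro Z y u hy hu hZ
    have hu1 := hAδ y u hy hu
    induction Z using OnePoint.rec with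
    | coe z =>
      refine ⟨z, ?_, rfl⟩
      obtain ⟨h1, h2⟩ := key z u hZ hu1
      exact ⟨by linarith, by linarith⟩
    | infty =>
      exfalso
      apply hnotfree u hu1
      right; right
      exact powFamily_infty_ratMap hnpos hred hZ
  · intro z y u hy hu hz
    exact deriv_powFamily_ne_zero hnpos hz (hnotfree u (hAδ y u hy hu))
  · intro y hy g hg hgF u hu
    have h1 := norm_deriv_le_of_annulus (g := g) (y := y) (ρ := δ / 2) (η := η) (by positivity)
      hη0 (by linarith) hg (fun v hv => key (g v) v (hgF v hv) (hAδ y v hy (by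
        rw [← dist_eq_norm]; exact (mem_ball.1 hv).le))) u hu
    have h2 : 32 * η / (δ / 2) = 1 / 4 := by
      rw [hδη]; field_simp; norm_num
    rwa [h2] at h1

end Pool.Agent.helper98.Rat
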