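import Pool.Agent.helper98.ILF.Cover
import Pool.Agent.helper98.ILF.Poly

/-!
# Compact forward invariant sets with contracting inverse branches have area zero
-/

set_option autoImplicit false

open Metric Set Filter Complex MeasureTheory Topology

namespace Pool.Agent.helper98.Rat

open Pool.Agent.helper98.ILF (density_of_compact volume_zero_of_porous volume_image_ge)

/-- `g` is a contracting inverse branch of `f` on the disc of radius `ρ` around `f z`. -/
structure InvBranch (f : ℂ → ℂ) (z : ℂ) (ρ M : ℝ) (g : ℂ → ℂ) : Prop where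
  diff : DifferentiableOn ℂ g (ball (f z) ρ)
  center : g (f z) = z
  right : ∀ u ∈ ball (f z) ρ, f (g u) = u
  lower : ∀ u ∈ ball (f z) ρ, 1 ≤ M * ‖deriv g u‖
  upper : ∀ u ∈ ball (f z) ρ, ‖deriv g u‖ ≤ 1 / 4

variable {f : ℂ → ℂ} {z : ℂ} {ρ M : ℝ} {g : ℂ → ℂ}

lemma InvBranch.deriv_ne (h : InvBranch f z ρ M g) {u : ℂ} (hu : u ∈ ball (f z) ρ) :
    deriv g u ≠ 0 := by
  intro h0
  have := h.lower u hu
  rw [h0, norm_zero, mul_zero] at this
  linarith

lemma InvBranch.differentiableAt (h : InvBranch f z ρ M g) {u : ℂ} (hu : u ∈ ball (f z) ρ) :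
    DifferentiableAt ℂ g u := h.diff.differentiableAt (isOpen_ball.mem_nhds hu)

lemma InvBranch.hasDerivAt (h : InvBranch f z ρ M g) (hρ : 0 < ρ) :
    HasDerivAt f (deriv g (f z))⁻¹ z := by
  have hm : f z ∈ ball (f z) ρ := mem_ball_self hρ
  have h1 : HasStrictDerivAt g (deriv g (f z)) (f z) := by
    have : AnalyticAt ℂ g (f z) := h.diff.analyticAt (isOpen_ball.mem_nhds hm)
    exact this.hasStrictDerivAt
  have h2 : map g (𝓝 (f z)) = 𝓝 z := by
    rw [h1.map_nhds_eq (h.deriv_ne hm), h.center]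
  have hcont : ContinuousAt f z := by
    rw [ContinuousAt, ← h2, tendsto_map'_iff]
    refine tendsto_id.congr' ?_
    filter_upwards [isOpen_ball.mem_nhds hm] with u hu
    exact (h.right u hu).symm
  have hleft : ∀ᶠ y in 𝓝 z, g (f y) = y := by
    rw [← h2, eventually_map]
    filter_upwards [isOpen_ball.mem_nhds hm] with u hu
    rw [h.right u hu]
  exact HasDerivAt.of_local_left_inverse hcont (h.differentiableAt hm).hasDerivAt
    (h.deriv_ne hm) hleft

/-- Composite inverse branches with bounded distortion. -/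
structure CompBranch (f : ℂ → ℂ) (m : ℕ) (z : ℂ) (r E : ℝ) (b : ℝ) (G : ℂ → ℂ) : Prop where
  pos : 0 < b
  diff : DifferentiableOn ℂ G (ball (f^[m] z) r)
  center : G (f^[m] z) = z
  right : ∀ y ∈ ball (f^[m] z) r, f^[m] (G y) = y
  small : ∀ y ∈ ball (f^[m] z) r, ‖deriv G y‖ ≤ (1 / 4) ^ m
  up : ∀ y ∈ ball (f^[m] z) r, ‖deriv G y‖ ≤ E * b
  low : ∀ y ∈ ball (f^[m] z) r, b ≤ E * ‖deriv G y‖

theorem exists_compBranch {S : Set ℂ} (hfS : ∀ z ∈ S, f z ∈ S) (hρ : 0 < ρ) (hM : 0 < M)
    (hbr : ∀ z ∈ S, ∃ g, InvBranch f z ρ M g) {r : ℝ} (hr : 0 < r) (hrρ : r ≤ ρ)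
    (hrM : M * r ≤ ρ / 4) (m : ℕ) :
    ∀ z ∈ S, ∃ b G, CompBranch f m z r
      (Real.exp (∑ i ∈ Finset.range m, 1 / 4 * (1 / 4) ^ i)) b G := by
  induction m with
  | zero =>
    intro z _
    refine ⟨1, id, ⟨one_pos, differentiableOn_id, rfl, fun y _ => rfl, ?_, ?_, ?_⟩⟩
    all_goals intro y _; simp
  | succ m ih =>
    intro z hz
    obtain ⟨b, G, hG⟩ := ih (f z) (hfS z hz)
    obtain ⟨g, hg⟩ := hbr z hz
    have hit : f^[m + 1] z = f^[m] (f z) := Function.iterate_succ_apply f m z
    have hm : f^[m] (f z) ∈ ball (f^[m] (f z)) r := mem_ball_self hr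
    have hdist : ∀ y ∈ ball (f^[m] (f z)) r, ‖G y - f z‖ ≤ (1 / 4) ^ m * r := by
      intro y hy
      have h1 := (convex_ball (f^[m] (f z)) r).norm_image_sub_le_of_norm_deriv_le
        (fun u hu => hG.diff.differentiableAt (isOpen_ball.mem_nhds hu)) hG.small hm hy
      rw [hG.center] at h1
      refine h1.trans ?_
      apply mul_le_mul_of_nonneg_left _ (by positivity)
      rw [← dist_eq_norm]; exact (mem_ball.1 hy).le
    have hmaps : ∀ y ∈ ball (f^[m] (f z)) r, G y ∈ ball (f z) ρ := by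
      intro y hy
      rw [mem_ball, dist_eq_norm]
      rcases Nat.eq_zero_or_pos m with h0 | h0
      · subst h0
        have hid := hG.right y hy
        simp only [Function.iterate_zero, id] at hid
        rw [hid]
        have := mem_ball.1 hy
        simp only [Function.iterate_zero, id, dist_eq_norm] at this
        linarith
      · have h1 : (1 / 4 : ℝ) ^ m < 1 := pow_lt_one₀ (by norm_num) (by norm_num) h0.ne'
        calc ‖G y - f z‖ ≤ (1 / 4) ^ m * r := hdist y hy
          _ < 1 * r := by gcongr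
          _ ≤ ρ := by linarith
    have hcen : f z ∈ ball (f z) ρ := mem_ball_self hρ
    -- distortion of one branch
    have hone : ∀ u ∈ ball (f z) ρ, ‖deriv g u - deriv g (f z)‖ ≤
        M / (2 * ρ) * ‖u - f z‖ * ‖deriv g (f z)‖ := by
      intro u hu
      have hd : DifferentiableOn ℂ (deriv g) (ball (f z) ρ) := hg.diff.deriv isOpen_ball
      have hmt : MapsTo (deriv g) (ball (f z) ρ) (closedBall (deriv g (f z)) (1 / 2)) := by
        intro v hv
        rw [mem_closedBall, dist_eq_norm]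
        calc ‖deriv g v - deriv g (f z)‖ ≤ ‖deriv g v‖ + ‖deriv g (f z)‖ := norm_sub_le _ _
          _ ≤ 1 / 4 + 1 / 4 := add_le_add (hg.upper v hv) (hg.upper _ hcen)
          _ = 1 / 2 := by norm_num
      have h1 := Complex.dist_le_div_mul_dist_of_mapsTo_ball hd hmt hu
      rw [dist_eq_norm, dist_eq_norm] at h1
      have h2 := hg.lower (f z) hcen
      calc ‖deriv g u - deriv g (f z)‖ ≤ 1 / 2 / ρ * ‖u - f z‖ := h1
        _ = 1 / (2 * ρ) * ‖u - f z‖ * 1 := by field_simp
        _ ≤ 1 / (2 * ρ) * ‖u - f z‖ * (M * ‖deriv g (f z)‖) := by gcongr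
        _ = _ := by ring
    set x : ℝ := 1 / 8 * (1 / 4) ^ m with hx
    have hx0 : 0 ≤ x := by positivity
    have hx8 : x ≤ 1 / 8 := by
      have : (1 / 4 : ℝ) ^ m ≤ 1 := pow_le_one₀ (by norm_num) (by norm_num)
      rw [hx]; linarith
    have hratio : ∀ y ∈ ball (f^[m] (f z)) r,
        ‖deriv g (G y) - deriv g (f z)‖ ≤ x * ‖deriv g (f z)‖ := by
      intro y hy
      refine (hone _ (hmaps y hy)).trans ?_
      apply mul_le_mul_of_nonneg_right _ (norm_nonneg _)
      calc M / (2 * ρ) * ‖G y - f z‖ ≤ M / (2 * ρ) * ((1 / 4) ^ m * r) := by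
            gcongr; exact hdist y hy
        _ = (M * r) / (2 * ρ) * (1 / 4) ^ m := by ring
        _ ≤ (ρ / 4) / (2 * ρ) * (1 / 4) ^ m := by gcongr
        _ = x := by rw [hx]; field_simp; norm_num
    have hGd : ∀ y ∈ ball (f^[m] (f z)) r, HasDerivAt (fun y => g (G y))
        (deriv g (G y) * deriv G y) y := by
      intro y hy
      exact (hg.differentiableAt (hmaps y hy)).hasDerivAt.comp y
        (hG.diff.differentiableAt (isOpen_ball.mem_nhds hy)).hasDerivAt
    have ha0 : 0 < ‖deriv g (f z)‖ := norm_pos_iff.2 (hg.deriv_ne hcen)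
    have hexp1 : 1 + x ≤ Real.exp (1 / 4 * (1 / 4) ^ m) := by
      have := Real.add_one_le_exp (1 / 4 * (1 / 4 : ℝ) ^ m)
      have h2 : x ≤ 1 / 4 * (1 / 4) ^ m := by
        rw [hx]; have : (0 : ℝ) < (1 / 4) ^ m := by positivity
        linarith
      linarith
    have hexp2 : 1 ≤ (1 - x) * Real.exp (1 / 4 * (1 / 4) ^ m) := by
      have h1 := Real.add_one_le_exp (1 / 4 * (1 / 4 : ℝ) ^ m)
      have h2 : 1 / 4 * (1 / 4 : ℝ) ^ m = 2 * x := by rw [hx]; ring
      rw [h2] at h1 ⊢
      nlinarith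
    rw [Finset.sum_range_succ, Real.exp_add]
    set E := Real.exp (∑ i ∈ Finset.range m, 1 / 4 * (1 / 4 : ℝ) ^ i) with hE
    set T := Real.exp (1 / 4 * (1 / 4 : ℝ) ^ m) with hT
    have hE0 : 0 < E := Real.exp_pos _
    have hT0 : 0 < T := Real.exp_pos _
    refine ⟨‖deriv g (f z)‖ * b, fun y => g (G y), ⟨mul_pos ha0 hG.pos, ?_, ?_, ?_, ?_, ?_, ?_⟩⟩
    · rw [hit]
      intro y hy
      exact (hGd y hy).differentiableAt.differentiableWithinAt
    · rw [hit, hG.center, hg.center]
    · intro y hy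
      rw [hit] at hy
      rw [Function.iterate_succ_apply, hg.right _ (hmaps y hy), hG.right y hy]
    · intro y hy
      rw [hit] at hy
      rw [(hGd y hy).deriv, norm_mul, pow_succ, mul_comm]
      exact mul_le_mul (hG.small y hy) (hg.upper _ (hmaps y hy)) (norm_nonneg _) (by positivity)
    · intro y hy
      rw [hit] at hy
      rw [(hGd y hy).deriv, norm_mul]
      have h1 : ‖deriv g (G y)‖ ≤ T * ‖deriv g (f z)‖ := by
        have h2 : ‖deriv g (G y)‖ ≤ ‖deriv g (G y) - deriv g (f z)‖ + ‖deriv g (f z)‖ := by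
          have := norm_add_le (deriv g (G y) - deriv g (f z)) (deriv g (f z))
          rwa [sub_add_cancel] at this
        have h3 := hratio y hy
        calc ‖deriv g (G y)‖ ≤ (1 + x) * ‖deriv g (f z)‖ := by linarith
          _ ≤ _ := by gcongr
      calc ‖deriv g (G y)‖ * ‖deriv G y‖ ≤ (T * ‖deriv g (f z)‖) * (E * b) :=
            mul_le_mul h1 (hG.up y hy) (norm_nonneg _) (by positivity)
        _ = _ := by ring
    · intro y hy
      rw [hit] at hy
      rw [(hGd y hy).deriv, norm_mul]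
      have h1 : ‖deriv g (f z)‖ ≤ T * ‖deriv g (G y)‖ := by
        have h2 : ‖deriv g (f z)‖ ≤ ‖deriv g (G y)‖ + ‖deriv g (G y) - deriv g (f z)‖ := by
          have := norm_sub_le (deriv g (G y)) (deriv g (G y) - deriv g (f z))
          rwa [sub_sub_cancel] at this
        have h3 := hratio y hy
        have h4 : (1 - x) * ‖deriv g (f z)‖ ≤ ‖deriv g (G y)‖ := by linarith
        calc ‖deriv g (f z)‖ = 1 * ‖deriv g (f z)‖ := (one_mul _).symm
          _ ≤ ((1 - x) * T) * ‖deriv g (f z)‖ := by gcongr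
          _ = T * ((1 - x) * ‖deriv g (f z)‖) := by ring
          _ ≤ _ := by gcongr
      calc ‖deriv g (f z)‖ * b ≤ (T * ‖deriv g (G y)‖) * (E * ‖deriv G y‖) :=
            mul_le_mul h1 (hG.low y hy) hG.pos.le (by positivity)
        _ = _ := by ring

lemma exp_sum_le (m : ℕ) : Real.exp (∑ i ∈ Finset.range m, 1 / 4 * (1 / 4 : ℝ) ^ i) ≤ 2 := by
  have h1 : ∑ i ∈ Finset.range m, 1 / 4 * (1 / 4 : ℝ) ^ i ≤ 1 / 3 := by
    rw [← Finset.mul_sum, geom_sum_eq (by norm_num)]
    have : (0 : ℝ) ≤ (1 / 4) ^ m := by positivity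
    have h2 : ((1 / 4 : ℝ) ^ m - 1) / (1 / 4 - 1) = (1 - (1 / 4 : ℝ) ^ m) * (4 / 3) := by
      rw [div_eq_iff (by norm_num)]; ring
    rw [h2]; linarith
  rw [← Real.le_log_iff_exp_le (by norm_num)]
  have := Real.log_two_gt_d9
  linarith

/-- A compact forward invariant set with contracting inverse branches has empty interior. -/
theorem interior_eq_empty {S : Set ℂ} (hS : IsCompact S) (hfS : ∀ z ∈ S, f z ∈ S) (hρ : 0 < ρ)
    (hbr : ∀ z ∈ S, ∃ g, InvBranch f z ρ M g) : interior S = ∅ := by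
  rw [← not_nonempty_iff_eq_empty]
  rintro ⟨z₀, hz₀⟩
  obtain ⟨r, hr, hball⟩ := Metric.isOpen_iff.1 isOpen_interior z₀ hz₀
  have hball' : ball z₀ r ⊆ S := hball.trans interior_subset
  obtain ⟨R, hR⟩ := hS.isBounded.exists_norm_le
  have hR0 : 0 ≤ R := (norm_nonneg z₀).trans (hR z₀ (interior_subset hz₀))
  have hder : ∀ z ∈ S, ∃ d : ℂ, HasDerivAt f d z ∧ 4 ≤ ‖d‖ := by
    intro z hz
    obtain ⟨g, hg⟩ := hbr z hz
    refine ⟨_, hg.hasDerivAt hρ, ?_⟩
    have h1 := hg.upper (f z) (mem_ball_self hρ)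
    have h2 : 0 < ‖deriv g (f z)‖ := norm_pos_iff.2 (hg.deriv_ne (mem_ball_self hρ))
    rw [norm_inv]
    rw [show (4 : ℝ) = (1 / 4)⁻¹ by norm_num]
    exact inv_anti₀ h2 h1
  have hiter : ∀ k, ∀ z ∈ S, f^[k] z ∈ S := by
    intro k
    induction k with
    | zero => intro z hz; exact hz
    | succ k ih => intro z hz; rw [Function.iterate_succ_apply]; exact ih _ (hfS z hz)
  have hderk : ∀ k, ∀ z ∈ S, ∃ d : ℂ, HasDerivAt (f^[k]) d z ∧ (4 : ℝ) ^ k ≤ ‖d‖ := by
    intro k
    induction k with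
    | zero => intro z _; exact ⟨1, hasDerivAt_id z, by simp⟩
    | succ k ih =>
      intro z hz
      obtain ⟨d, hd, hd4⟩ := hder z hz
      obtain ⟨e, he, he4⟩ := ih (f z) (hfS z hz)
      refine ⟨e * d, ?_, ?_⟩
      · rw [Function.iterate_succ]
        exact he.comp z hd
      · rw [norm_mul, pow_succ]
        exact mul_le_mul he4 hd4 (by norm_num) (norm_nonneg _)
  -- Cauchy estimate
  have hle : ∀ k : ℕ, (4 : ℝ) ^ k ≤ (R + 1) / (r / 2) := by
    intro k
    obtain ⟨d, hd, hd4⟩ := hderk k z₀ (interior_subset hz₀)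
    have hdiff : DifferentiableOn ℂ (f^[k]) (ball z₀ r) := by
      intro z hz
      obtain ⟨e, he, -⟩ := hderk k z (hball' hz)
      exact he.differentiableAt.differentiableWithinAt
    have hcl : DiffContOnCl ℂ (f^[k]) (ball z₀ (r / 2)) := by
      apply DifferentiableOn.diffContOnCl_ball (U := ball z₀ r) hdiff
      exact closedBall_subset_ball (by linarith)
    have h1 : ‖deriv (f^[k]) z₀‖ ≤ (R + 1) / (r / 2) := by
      apply Complex.norm_deriv_le_of_forall_mem_sphere_norm_le (by positivity) hcl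
      intro z hz
      have hz' : z ∈ ball z₀ r := by
        rw [mem_ball, mem_sphere.1 hz]; linarith
      have := hR _ (hiter k z (hball' hz'))
      linarith
    rw [hd.deriv] at h1
    exact hd4.trans h1
  obtain ⟨k, hk⟩ := pow_unbounded_of_one_lt ((R + 1) / (r / 2)) (by norm_num : (1 : ℝ) < 4)
  exact absurd (hle k) (not_le.2 hk)

/-- **Area zero.** -/
theorem area_zero {S : Set ℂ} (hS : IsCompact S) (hfS : ∀ z ∈ S, f z ∈ S) (hρ : 0 < ρ)
    (hM : 0 < M) (hbr : ∀ z ∈ S, ∃ g, InvBranch f z ρ M g) : volume S = 0 := by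
  have hint := interior_eq_empty hS hfS hρ hbr
  have hiter : ∀ k, ∀ z ∈ S, f^[k] z ∈ S := by
    intro k
    induction k with
    | zero => intro z hz; exact hz
    | succ k ih => intro z hz; rw [Function.iterate_succ_apply]; exact ih _ (hfS z hz)
  obtain ⟨r, hr, hrρ, hrM⟩ : ∃ r > 0, r ≤ ρ ∧ M * r ≤ ρ / 4 := by
    refine ⟨min ρ (ρ / (4 * M)), by positivity, min_le_left _ _, ?_⟩
    calc M * min ρ (ρ / (4 * M)) ≤ M * (ρ / (4 * M)) := by gcongr; exact min_le_right _ _
      _ = ρ / 4 := by field_simp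
  obtain ⟨ε, hε, hεS⟩ := density_of_compact hS hint r hr
  have hpi := Real.pi_pos
  have hSm : MeasurableSet S := hS.isClosed.measurableSet
  apply volume_zero_of_porous hSm (q := ε / (16 * Real.pi * r ^ 2)) (by positivity)
  intro z hz
  have hch : ∀ m, ∃ b G, CompBranch f m z r
      (Real.exp (∑ i ∈ Finset.range m, 1 / 4 * (1 / 4) ^ i)) b G := fun m =>
    exists_compBranch hfS hρ hM hbr hr hrρ hrM m z hz
  choose b G hG using hch
  refine ⟨fun m => 2 * b m * r, fun m => ?_, ?_, fun m => ?_⟩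
  · have := (hG m).pos; positivity
  · have hble : ∀ m, b m ≤ 2 * (1 / 4) ^ m := by
      intro m
      have hc : f^[m] z ∈ ball (f^[m] z) r := mem_ball_self hr
      calc b m ≤ _ := (hG m).low _ hc
        _ ≤ 2 * (1 / 4) ^ m := mul_le_mul (exp_sum_le m) ((hG m).small _ hc) (norm_nonneg _)
            (by norm_num)
    have h1 : Tendsto (fun m : ℕ => 2 * (2 * (1 / 4 : ℝ) ^ m) * r) atTop (𝓝 (2 * (2 * 0) * r)) :=
      (((tendsto_pow_atTop_nhds_zero_of_lt_one (by norm_num) (by norm_num)).const_mul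
        2).const_mul 2).mul_const r
    simp only [mul_zero, zero_mul] at h1
    refine squeeze_zero (fun m => ?_) (fun m => ?_) h1
    · have := (hG m).pos; positivity
    · have := hble m
      gcongr
  · have hb0 := (hG m).pos
    set T : Set ℂ := ball (f^[m] z) r \ S with hT
    have hTm : MeasurableSet T := measurableSet_ball.diff hSm
    have hinj : InjOn (G m) T := by
      intro x hx y hy hxy
      rw [← (hG m).right x hx.1, ← (hG m).right y hy.1, hxy]
    have himg : G m '' T ⊆ closedBall z (2 * b m * r) \ S := by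
      rintro _ ⟨y, ⟨hy1, hy2⟩, rfl⟩
      constructor
      · have h2 := (convex_ball (f^[m] z) r).norm_image_sub_le_of_norm_deriv_le
          (fun z hz => (hG m).diff.differentiableAt (isOpen_ball.mem_nhds hz))
          (fun u hu => ((hG m).up u hu).trans
            (mul_le_mul_of_nonneg_right (exp_sum_le m) hb0.le)) (mem_ball_self hr) hy1
        rw [(hG m).center] at h2
        rw [mem_closedBall, dist_eq_norm]
        refine h2.trans ?_
        apply mul_le_mul_of_nonneg_left _ (by positivity)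
        rw [← dist_eq_norm]; exact (mem_ball.1 hy1).le
      · intro hSmem
        apply hy2
        rw [← (hG m).right y hy1]
        exact hiter m _ hSmem
    have hvol := volume_image_ge (G := G m) (T := T) (β := b m / 2) hTm (by positivity)
      (fun y hy => (hG m).diff.differentiableAt (isOpen_ball.mem_nhds hy.1)) hinj
      (fun y hy => by
        have h1 := (hG m).low y hy.1
        have h2 := mul_le_mul_of_nonneg_right (exp_sum_le m) (norm_nonneg (deriv (G m) y))
        linarith)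
    calc ENNReal.ofReal (ε / (16 * Real.pi * r ^ 2) * (Real.pi * (2 * b m * r) ^ 2))
        = ENNReal.ofReal ((b m / 2) ^ 2) * ENNReal.ofReal ε := by
          rw [← ENNReal.ofReal_mul (by positivity)]
          congr 1
          field_simp
          ring
      _ ≤ ENNReal.ofReal ((b m / 2) ^ 2) * volume T := by
          gcongr; exact hεS _ (hiter m z hz)
      _ ≤ volume (G m '' T) := hvol
      _ ≤ volume (closedBall z (2 * b m * r) \ S) := measure_mono himg

end Pool.Agent.helper98.Rat
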