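import Pool.Agent.helper98.Rat.Hom

/-!
# Continuity of rational maps of the sphere
-/

set_option autoImplicit false

open Polynomial Topology Filter MeasureTheory Set

namespace Pool.Agent.helper98.Rat

lemma tendsto_infty_iff {α : Type*} {l : Filter α} {f : α → OnePoint ℂ} :
    Tendsto f l (𝓝 OnePoint.infty) ↔
      ∀ R : ℝ, ∀ᶠ x in l, ∀ z : ℂ, f x = OnePoint.some z → R < ‖z‖ := by
  rw [OnePoint.hasBasis_nhds_infty.tendsto_right_iff]
  constructor
  · intro h R
    have := h (Metric.closedBall 0 R) ⟨Metric.isClosed_closedBall, isCompact_closedBall 0 R⟩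
    filter_upwards [this] with x hx z hz
    rw [hz] at hx
    rcases hx with ⟨w, hw, hwz⟩ | hx
    · have := OnePoint.coe_injective hwz
      subst this
      simpa using hw
    · exact absurd hx (by simp)
  · intro h s hs
    obtain ⟨R, hR⟩ := hs.2.isBounded.exists_norm_le
    filter_upwards [h R] with x hx
    by_cases hf : f x = OnePoint.infty
    · right; exact hf
    · obtain ⟨z, hz⟩ := OnePoint.ne_infty_iff_exists.1 hf
      left
      refine ⟨z, ?_, hz⟩
      intro hzs
      exact absurd (hR z hzs) (not_le.2 (hx z hz.symm))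

lemma tendsto_mk {p₀ q₀ : ℂ} (h : p₀ ≠ 0 ∨ q₀ ≠ 0) :
    Tendsto (fun u : ℂ × ℂ => mk u.1 u.2) (𝓝 (p₀, q₀)) (𝓝 (mk p₀ q₀)) := by
  by_cases hq : q₀ = 0
  · have hp : p₀ ≠ 0 := by tauto
    subst hq
    rw [mk_of_zero, tendsto_infty_iff]
    intro R
    have hp0 : 0 < ‖p₀‖ := norm_pos_iff.2 hp
    have h1 : ∀ᶠ u : ℂ × ℂ in 𝓝 (p₀, 0), ‖p₀‖ / 2 < ‖u.1‖ := by
      have : Tendsto (fun u : ℂ × ℂ => ‖u.1‖) (𝓝 (p₀, 0)) (𝓝 ‖p₀‖) :=
        (continuous_fst.norm).tendsto _
      exact this.eventually_const_lt (by linarith)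
    have h2 : ∀ᶠ u : ℂ × ℂ in 𝓝 (p₀, 0), ‖u.2‖ < ‖p₀‖ / (2 * (|R| + 1)) := by
      have : Tendsto (fun u : ℂ × ℂ => ‖u.2‖) (𝓝 (p₀, 0)) (𝓝 ‖(0 : ℂ)‖) :=
        (continuous_snd.norm).tendsto _
      exact this.eventually_lt_const (by rw [norm_zero]; positivity)
    filter_upwards [h1, h2] with u hu1 hu2 z hz
    obtain ⟨hq, hpz⟩ := mk_eq_some hz
    have hq0 : 0 < ‖u.2‖ := norm_pos_iff.2 hq
    rw [hpz, norm_mul] at hu1
    have hR : 0 < |R| + 1 := by positivity
    rw [lt_div_iff₀ (by positivity)] at hu2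
    have h3 : ‖u.2‖ * (|R| + 1) < ‖z‖ * ‖u.2‖ := by linarith
    have h4 : |R| + 1 < ‖z‖ := by
      by_contra hcon
      rw [not_lt] at hcon
      nlinarith
    linarith [le_abs_self R]
  · rw [mk_of_ne hq]
    have h1 : ∀ᶠ u : ℂ × ℂ in 𝓝 (p₀, q₀), u.2 ≠ 0 :=
      (continuous_snd.tendsto (p₀, q₀)).eventually_ne hq
    have h2 : Tendsto (fun u : ℂ × ℂ => (OnePoint.some (u.1 / u.2) : OnePoint ℂ)) (𝓝 (p₀, q₀))
        (𝓝 (OnePoint.some (p₀ / q₀))) := by
      apply (OnePoint.continuous_coe.tendsto _).comp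
      exact (continuous_fst.tendsto _).div (continuous_snd.tendsto _) hq
    refine h2.congr' ?_
    filter_upwards [h1] with u hu
    rw [mk_of_ne hu]

lemma tendsto_inv_coclosedCompact :
    Tendsto (fun z : ℂ => z⁻¹) (coclosedCompact ℂ) (𝓝 0) := by
  rw [coclosedCompact_eq_cocompact, ← Metric.cobounded_eq_cocompact]
  exact tendsto_inv₀_cobounded

lemma ne_zero_coclosedCompact : ∀ᶠ z : ℂ in coclosedCompact ℂ, z ≠ 0 := by
  rw [coclosedCompact_eq_cocompact]
  exact (isCompact_singleton (x := (0 : ℂ))).compl_mem_cocompact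

/-- Rational maps are continuous on the sphere. -/
theorem continuous_ratMap {P Q : ℂ[X]} (h : Reduced P Q) : Continuous (ratMap P Q) := by
  rw [continuous_iff_continuousAt]
  intro Z
  induction Z using OnePoint.rec with
  | coe z =>
    rw [OnePoint.continuousAt_coe]
    have h1 : ContinuousAt (fun z : ℂ => (P.eval z, Q.eval z)) z := by fun_prop
    exact (tendsto_mk (h.fin z)).comp h1
  | infty =>
    rw [OnePoint.continuousAt_infty', ratMap_infty]
    have hP : P.natDegree ≤ dg P Q := le_max_left _ _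
    have hQ : Q.natDegree ≤ dg P Q := le_max_right _ _
    have h1 : Tendsto (fun z : ℂ => (hom (dg P Q) P 1 z⁻¹, hom (dg P Q) Q 1 z⁻¹))
        (coclosedCompact ℂ) (𝓝 (P.coeff (dg P Q), Q.coeff (dg P Q))) := by
      have h2 : Continuous (fun y : ℂ => (hom (dg P Q) P 1 y, hom (dg P Q) Q 1 y)) :=
        (hom_continuous continuous_const continuous_id).prodMk
          (hom_continuous continuous_const continuous_id)
      have h3 := (h2.tendsto 0).comp tendsto_inv_coclosedCompact
      simpa [hom_zero_right, Function.comp_def] using h3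
    refine ((tendsto_mk h.top).comp h1).congr' ?_
    filter_upwards [ne_zero_coclosedCompact] with z hz
    have hz' : z⁻¹ ≠ 0 := inv_ne_zero hz
    simp only [Function.comp_apply, hom_of_ne hP hz', hom_of_ne hQ hz', one_div, inv_inv,
      ratMap_some]
    rw [mk_mul (pow_ne_zero _ hz')]

end Pool.Agent.helper98.Rat
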