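import Mathlib

/-!
# Rational maps of the Riemann sphere, Julia sets and invariant line fields
-/

set_option autoImplicit false

open Polynomial Topology Filter MeasureTheory

namespace Pool.Agent.helper98.Rat

/-- The chordal distance on the Riemann sphere (half of the usual one). -/
noncomputable def chord : OnePoint ℂ → OnePoint ℂ → ℝ
  | OnePoint.some a, OnePoint.some b =>
      ‖a - b‖ / (Real.sqrt (1 + ‖a‖ ^ 2) * Real.sqrt (1 + ‖b‖ ^ 2))
  | OnePoint.some a, OnePoint.infty => 1 / Real.sqrt (1 + ‖a‖ ^ 2)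
  | OnePoint.infty, OnePoint.some b => 1 / Real.sqrt (1 + ‖b‖ ^ 2)
  | OnePoint.infty, OnePoint.infty => 0

/-- The point of the Riemann sphere with homogeneous coordinates `[p : q]`. -/
noncomputable def mk (p q : ℂ) : OnePoint ℂ :=
  if q = 0 then OnePoint.infty else OnePoint.some (p / q)

/-- The rational map `z ↦ P(z) / Q(z)` of the Riemann sphere, for coprime polynomials `P`, `Q`. -/
noncomputable def ratMap (P Q : ℂ[X]) : OnePoint ℂ → OnePoint ℂ
  | OnePoint.some z => mk (P.eval z) (Q.eval z)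
  | OnePoint.infty => mk (P.coeff (max P.natDegree Q.natDegree))
      (Q.coeff (max P.natDegree Q.natDegree))

/-- The iterates of `F` are equicontinuous at the point `Z` of the sphere. -/
def EquicontAt (F : OnePoint ℂ → OnePoint ℂ) (Z : OnePoint ℂ) : Prop :=
  ∀ ε > 0, ∀ᶠ W in 𝓝 Z, ∀ k : ℕ, chord (F^[k] W) (F^[k] Z) < ε

/-- The Fatou set: the largest open set on which the iterates are equicontinuous. -/
def fatouSet (F : OnePoint ℂ → OnePoint ℂ) : Set (OnePoint ℂ) := interior {Z | EquicontAt F Z}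

/-- The Julia set of `F`. -/
def juliaSet (F : OnePoint ℂ → OnePoint ℂ) : Set (OnePoint ℂ) := (fatouSet F)ᶜ

/-- A map of the sphere as a function on the plane (value `0` at the poles). -/
noncomputable def toPlane (F : OnePoint ℂ → OnePoint ℂ) (z : ℂ) : ℂ :=
  (F (OnePoint.some z)).elim 0 id

/-- `μ` is an invariant line field of `F`, supported on the Julia set of `F`: `|μ| = 1` on a set of
positive area contained in the Julia set, `μ = 0` off this set, and `F^* μ = μ` almost
everywhere, where `(F^* μ)(z) = μ(F(z)) conj(F'(z)) / F'(z)`. -/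
def IsInvariantLineField (F : OnePoint ℂ → OnePoint ℂ) (μ : ℂ → ℂ) : Prop :=
  Measurable μ ∧ (∀ z, μ z ≠ 0 → ‖μ z‖ = 1) ∧ 0 < volume {z | μ z ≠ 0} ∧
    (∀ z : ℂ, μ z ≠ 0 → OnePoint.some z ∈ juliaSet F) ∧
    ∀ᵐ z : ℂ, μ (toPlane F z) * (starRingEnd ℂ) (deriv (toPlane F) z) / deriv (toPlane F) z = μ z

/-- `F` has an invariant line field supported on its Julia set. -/
def HasInvariantLineField (F : OnePoint ℂ → OnePoint ℂ) : Prop :=
  ∃ μ : ℂ → ℂ, IsInvariantLineField F μ

end Pool.Agent.helper98.Rat
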