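import Pool.Agent.helper98.Rat.Lift

/-!
# Quotients near zero and near infinity, and thin annuli
-/

set_option autoImplicit false

open Polynomial Topology Filter MeasureTheory Set Metric

namespace Pool.Agent.helper98.Rat

/-- Quotients near the origin. -/
lemma quotient_near_zero {p q : ℂ → ℂ} (hp : DifferentiableAt ℂ p 0)
    (hq : DifferentiableAt ℂ q 0) (h : p 0 ≠ 0 ∨ q 0 ≠ 0) (B : ℝ) :
    ∃ K > 0, ∃ r > 0, ∀ x : ℂ, ‖x‖ ≤ r → q x ≠ 0 →
      (q 0 = 0 ∧ B ≤ ‖p x / q x‖) ∨ (q 0 ≠ 0 ∧ ‖p x / q x - p 0 / q 0‖ ≤ K * ‖x‖) := by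
  by_cases hq0 : q 0 = 0
  · have hp0 : p 0 ≠ 0 := by tauto
    have hpn : 0 < ‖p 0‖ := norm_pos_iff.2 hp0
    have h1 : ∀ᶠ x in 𝓝 (0 : ℂ), ‖p 0‖ / 2 < ‖p x‖ :=
      (hp.continuousAt.norm).eventually_const_lt (by linarith)
    have h2 : ∀ᶠ x in 𝓝 (0 : ℂ), ‖q x‖ < ‖p 0‖ / (2 * (|B| + 1)) := by
      have h3 : Tendsto (fun x => ‖q x‖) (𝓝 0) (𝓝 ‖q 0‖) := hq.continuousAt.norm
      exact h3.eventually_lt_const (by rw [hq0, norm_zero]; positivity)
    obtain ⟨r, hr, hball⟩ := nhds_basis_closedBall.eventually_iff.1 (h1.and h2)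
    refine ⟨1, one_pos, r, hr, fun x hx hqx => Or.inl ⟨hq0, ?_⟩⟩
    obtain ⟨h4, h5⟩ := hball (by rw [mem_closedBall, dist_zero_right]; exact hx)
    have h6 : 0 < ‖q x‖ := norm_pos_iff.2 hqx
    have hB : 0 < |B| + 1 := by positivity
    rw [norm_div, le_div_iff₀ h6]
    rw [lt_div_iff₀ (by positivity)] at h5
    have h7 : B ≤ |B| := le_abs_self B
    nlinarith
  · have h1 : DifferentiableAt ℂ (fun x => p x / q x) 0 := hp.div hq hq0
    have h2 := h1.hasDerivAt.isBigO_sub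
    obtain ⟨K, hK, h3⟩ := h2.exists_pos
    rw [Asymptotics.IsBigOWith] at h3
    obtain ⟨r, hr, hball⟩ := nhds_basis_closedBall.eventually_iff.1 h3
    refine ⟨K, hK, r, hr, fun x hx _ => Or.inr ⟨hq0, ?_⟩⟩
    have h4 := hball (by rw [mem_closedBall, dist_zero_right]; exact hx)
    simpa using h4

/-- Quotients near infinity in terms of quotients near the origin. -/
lemma div_eq_hom {P Q : ℂ[X]} {w : ℂ} (hw : w ≠ 0) :
    P.eval w / Q.eval w = hom (dg P Q) P 1 w⁻¹ / hom (dg P Q) Q 1 w⁻¹ := by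
  have hP : P.natDegree ≤ dg P Q := le_max_left _ _
  have hQ : Q.natDegree ≤ dg P Q := le_max_right _ _
  have hw' : w⁻¹ ≠ 0 := inv_ne_zero hw
  rw [hom_of_ne hP hw', hom_of_ne hQ hw', one_div, inv_inv,
    mul_div_mul_left _ _ (pow_ne_zero _ hw')]

lemma hom_ne_zero {P Q : ℂ[X]} {w : ℂ} (hw : w ≠ 0) (hQw : Q.eval w ≠ 0) :
    hom (dg P Q) Q 1 w⁻¹ ≠ 0 := by
  have hQ : Q.natDegree ≤ dg P Q := le_max_right _ _
  have hw' : w⁻¹ ≠ 0 := inv_ne_zero hw
  rw [hom_of_ne hQ hw', one_div, inv_inv]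
  exact mul_ne_zero (pow_ne_zero _ hw') hQw

lemma hom_differentiable (D : ℕ) (P : ℂ[X]) : Differentiable ℂ (fun x => hom D P 1 x) := by
  rw [← differentiableOn_univ]
  exact hom_differentiableOn (differentiableOn_const 1) differentiableOn_id

/-- Derivative of a function with values in a thin annulus. -/
lemma norm_deriv_le_of_annulus {g : ℂ → ℂ} {y : ℂ} {ρ η : ℝ} (hρ : 0 < ρ) (hη : 0 < η)
    (hη4 : η ≤ 1 / 4) (hg : DifferentiableOn ℂ g (ball y ρ))
    (hgη : ∀ u ∈ ball y ρ, 1 - η ≤ ‖g u‖ ∧ ‖g u‖ ≤ 1 + η) :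
    ∀ u ∈ ball y (ρ / 2), ‖deriv g u‖ ≤ 32 * η / ρ := by
  intro u hu
  set N : ℕ := ⌊1 / (2 * η)⌋₊ with hN
  have h2 : (2 : ℝ) ≤ 1 / (2 * η) := by
    rw [le_div_iff₀ (by positivity)]; linarith
  have hNle : (N : ℝ) ≤ 1 / (2 * η) := Nat.floor_le (by positivity)
  have hNge : 1 / (2 * η) < N + 1 := Nat.lt_floor_add_one _
  have hN1 : (1 : ℝ) < N := by linarith
  have hNpos : 1 ≤ N := by
    have : (1 : ℝ) ≤ N := hN1.le
    exact_mod_cast this
  have hNη : (N : ℝ) * η ≤ 1 / 2 := by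
    calc (N : ℝ) * η ≤ 1 / (2 * η) * η := by gcongr
      _ = 1 / 2 := by field_simp
  have hN4 : 1 / (4 * η) ≤ N := by
    have h5 : 1 / (4 * η) = 1 / (2 * η) / 2 := by field_simp; norm_num
    rw [h5]; linarith
  have hcl : closedBall u (ρ / 2) ⊆ ball y ρ := by
    apply closedBall_subset_ball'
    have := mem_ball.1 hu
    linarith
  have huy : u ∈ ball y ρ := hcl (mem_closedBall_self (by positivity))
  have hE : DifferentiableOn ℂ (fun v => g v ^ N) (ball y ρ) := hg.pow N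
  have hdc : DiffContOnCl ℂ (fun v => g v ^ N) (ball u (ρ / 2)) := hE.diffContOnCl_ball hcl
  have hpow : ∀ v ∈ ball y ρ, ‖g v ^ N‖ ≤ 2 := by
    intro v hv
    rw [norm_pow]
    calc ‖g v‖ ^ N ≤ (1 + η) ^ N := by gcongr; exact (hgη v hv).2
      _ ≤ Real.exp η ^ N := by
          gcongr
          linarith [Real.add_one_le_exp η]
      _ = Real.exp (N * η) := by rw [← Real.exp_nat_mul]
      _ ≤ Real.exp (1 / 2) := Real.exp_le_exp.2 hNη
      _ ≤ 2 := by
          rw [← Real.le_log_iff_exp_le (by norm_num)]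
          have := Real.log_two_gt_d9
          linarith
  have hcau : ‖deriv (fun v => g v ^ N) u‖ ≤ 2 / (ρ / 2) :=
    Complex.norm_deriv_le_of_forall_mem_sphere_norm_le (by positivity) hdc
      (fun v hv => hpow v (hcl (sphere_subset_closedBall hv)))
  have hder : deriv (fun v => g v ^ N) u = N * g u ^ (N - 1) * deriv g u := by
    have h1 : HasDerivAt g (deriv g u) u :=
      (hg.differentiableAt (isOpen_ball.mem_nhds huy)).hasDerivAt
    exact (h1.fun_pow N).deriv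
  have hlow : 1 / 2 ≤ ‖g u‖ ^ (N - 1) := by
    have h1 : (1 : ℝ) / 2 ≤ (1 - η) ^ N := by
      have h3 := one_add_mul_le_pow (a := -η) (by linarith) N
      rw [← sub_eq_add_neg] at h3
      linarith
    calc (1 : ℝ) / 2 ≤ (1 - η) ^ N := h1
      _ ≤ (1 - η) ^ (N - 1) :=
          pow_le_pow_of_le_one (by linarith) (by linarith) (Nat.sub_le N 1)
      _ ≤ ‖g u‖ ^ (N - 1) := by
          gcongr
          · linarith
          · exact (hgη u huy).1
  rw [hder, norm_mul, norm_mul, norm_pow, Complex.norm_natCast] at hcau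
  have hN0 : (0 : ℝ) < N := by linarith
  have h6 : (N : ℝ) * (1 / 2) * ‖deriv g u‖ ≤ 2 / (ρ / 2) := by
    refine le_trans ?_ hcau
    gcongr
  have h7 : 1 / (4 * η) * (1 / 2) * ‖deriv g u‖ ≤ 2 / (ρ / 2) := by
    refine le_trans ?_ h6
    gcongr
  have h8 : ‖deriv g u‖ = 8 * η * (1 / (4 * η) * (1 / 2) * ‖deriv g u‖) := by
    field_simp; ring
  rw [h8]
  calc 8 * η * (1 / (4 * η) * (1 / 2) * ‖deriv g u‖) ≤ 8 * η * (2 / (ρ / 2)) := by gcongr
    _ = 32 * η / ρ := by field_simp; ring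

end Pool.Agent.helper98.Rat
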