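import Pool.Agent.helper98.Rat.Cont
import Pool.Agent.helper98.ILF.Julia

/-!
# Points of the Fatou set of a rational map
-/

set_option autoImplicit false

open Polynomial Topology Filter MeasureTheory Set Metric

namespace Pool.Agent.helper98.Rat

open Pool.Agent.helper98.ILF (one_le_sqrt_one_add norm_le_sqrt_one_add norm_sub_le_mul_sqrt)

lemma chord_some_some (a b : ℂ) :
    chord (OnePoint.some a) (OnePoint.some b) = Pool.Agent.helper98.ILF.chordal a b := rfl

lemma chord_some_infty (a : ℂ) :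
    chord (OnePoint.some a) OnePoint.infty = 1 / Real.sqrt (1 + ‖a‖ ^ 2) := rfl

lemma chord_infty_some (a : ℂ) :
    chord OnePoint.infty (OnePoint.some a) = 1 / Real.sqrt (1 + ‖a‖ ^ 2) := rfl

lemma chord_infty_infty : chord OnePoint.infty OnePoint.infty = 0 := rfl

lemma chord_self (X : OnePoint ℂ) : chord X X = 0 := by
  induction X using OnePoint.rec with
  | coe x => rw [chord_some_some, Pool.Agent.helper98.ILF.chordal]; simp
  | infty => rfl

/-- The chordal distance to a point tends to zero at this point. -/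
lemma tendsto_chord (Z : OnePoint ℂ) : Tendsto (fun W => chord W Z) (𝓝 Z) (𝓝 0) := by
  induction Z using OnePoint.rec with
  | coe z =>
    rw [OnePoint.nhds_coe_eq, tendsto_map'_iff]
    have h1 : Tendsto (fun w : ℂ => ‖w - z‖) (𝓝 z) (𝓝 0) := by
      have : Continuous (fun w : ℂ => ‖w - z‖) := by fun_prop
      simpa using this.tendsto z
    refine squeeze_zero (fun w => ?_) (fun w => ?_) h1
    · show 0 ≤ chord (OnePoint.some w) (OnePoint.some z)
      rw [chord_some_some, Pool.Agent.helper98.ILF.chordal]; positivity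
    · show chord (OnePoint.some w) (OnePoint.some z) ≤ ‖w - z‖
      rw [chord_some_some]
      exact Pool.Agent.helper98.ILF.chordal_le _ _
  | infty =>
    rw [OnePoint.tendsto_nhds_infty']
    refine ⟨?_, ?_⟩
    · rw [Filter.tendsto_pure_left]
      intro s hs
      show chord OnePoint.infty OnePoint.infty ∈ s
      rw [chord_infty_infty]; exact mem_of_mem_nhds hs
    · have h1 : Tendsto (fun w : ℂ => ‖w‖) (coclosedCompact ℂ) atTop := by
        rw [coclosedCompact_eq_cocompact, ← Metric.cobounded_eq_cocompact]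
        exact tendsto_norm_cobounded_atTop
      have h2 : Tendsto (fun w : ℂ => 1 / ‖w‖) (coclosedCompact ℂ) (𝓝 0) := by
        have h3 := tendsto_inv_atTop_zero.comp h1
        refine h3.congr fun w => ?_
        simp
      refine squeeze_zero' (Eventually.of_forall fun w => ?_) ?_ h2
      · show 0 ≤ chord (OnePoint.some w) OnePoint.infty
        rw [chord_some_infty]; positivity
      · filter_upwards [ne_zero_coclosedCompact] with w hw
        show chord (OnePoint.some w) OnePoint.infty ≤ 1 / ‖w‖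
        rw [chord_some_infty]
        exact one_div_le_one_div_of_le (norm_pos_iff.2 hw) (norm_le_sqrt_one_add w)

/-- The coordinate `1 / (x - a)` on the sphere without `a`. -/
noncomputable def psi (a : ℂ) : OnePoint ℂ → ℂ
  | OnePoint.some x => (x - a)⁻¹
  | OnePoint.infty => 0

lemma psi_some (a x : ℂ) : psi a (OnePoint.some x) = (x - a)⁻¹ := rfl
lemma psi_infty (a : ℂ) : psi a OnePoint.infty = 0 := rfl

lemma psi_mk (a p q : ℂ) (h : p - a * q ≠ 0) : psi a (mk p q) = q / (p - a * q) := by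
  by_cases hq : q = 0
  · subst hq; simp [psi_infty]
  · rw [mk_of_ne hq, psi_some]
    have h1 : p / q - a = (p - a * q) / q := by field_simp
    rw [h1, inv_div]

lemma chord_infty_le (a b : ℂ) (hb : b ≠ a) :
    1 / Real.sqrt (1 + ‖b‖ ^ 2) ≤ (1 + ‖a‖) ^ 2 * ‖(b - a)⁻¹‖ := by
  have hs := one_le_sqrt_one_add b
  have hn : 0 < ‖b - a‖ := norm_pos_iff.2 (sub_ne_zero.2 hb)
  have hB := norm_sub_le_mul_sqrt b a
  have ha := norm_nonneg a
  rw [norm_inv, ← div_eq_mul_inv, div_le_div_iff₀ (by linarith) hn, one_mul]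
  have h1 : (1 + ‖a‖) * Real.sqrt (1 + ‖b‖ ^ 2) ≤ (1 + ‖a‖) ^ 2 * Real.sqrt (1 + ‖b‖ ^ 2) := by
    apply mul_le_mul_of_nonneg_right _ (by linarith)
    nlinarith
  linarith

lemma chord_le_psi {a : ℂ} {X Y : OnePoint ℂ} (hX : X ≠ OnePoint.some a)
    (hY : Y ≠ OnePoint.some a) : chord X Y ≤ (1 + ‖a‖) ^ 2 * ‖psi a X - psi a Y‖ := by
  induction X using OnePoint.rec with
  | coe x =>
    have hx : x ≠ a := fun h => hX (by rw [h])
    induction Y using OnePoint.rec with
    | coe y =>
      have hy : y ≠ a := fun h => hY (by rw [h])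
      rw [chord_some_some, psi_some, psi_some]
      exact Pool.Agent.helper98.ILF.chordal_le_inv hx hy
    | infty =>
      rw [chord_some_infty, psi_some, psi_infty, sub_zero]
      exact chord_infty_le a x hx
  | infty =>
    induction Y using OnePoint.rec with
    | coe y =>
      have hy : y ≠ a := fun h => hY (by rw [h])
      rw [chord_infty_some, psi_some, psi_infty, zero_sub, norm_neg]
      exact chord_infty_le a y hy
    | infty =>
      rw [chord_infty_infty]; positivity

/-- Equicontinuity when all but finitely many iterates omit a fixed disc near `z₀`. -/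
theorem equicontAt_of_omit {P Q : ℂ[X]} (h : Reduced P Q) {z₀ a : ℂ} {δ ρ : ℝ} {k₁ : ℕ}
    (hδ : 0 < δ) (hρ : 0 < ρ)
    (hb : ∀ k ≥ k₁, ∀ w ∈ ball z₀ δ, ∀ y : ℂ,
      (ratMap P Q)^[k] (OnePoint.some w) = OnePoint.some y → ρ ≤ ‖y - a‖) :
    EquicontAt (ratMap P Q) (OnePoint.some z₀) := by
  set F := ratMap P Q with hF
  have hFc : Continuous F := continuous_ratMap h
  set p : ℕ → ℂ → ℂ := fun k w => ((hl P Q)^[k] (w, 1)).1 with hp
  set q : ℕ → ℂ → ℂ := fun k w => ((hl P Q)^[k] (w, 1)).2 with hq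
  have hne : ∀ k ≥ k₁, ∀ w ∈ ball z₀ δ, F^[k] (OnePoint.some w) ≠ OnePoint.some a := by
    intro k hk w hw heq
    have := hb k hk w hw a heq
    rw [sub_self, norm_zero] at this
    linarith
  have hden : ∀ k ≥ k₁, ∀ w ∈ ball z₀ δ, p k w - a * q k w ≠ 0 := by
    intro k hk w hw heq
    obtain ⟨h1, h2⟩ := hl_iterate h w k
    have h3 : p k w = a * q k w := sub_eq_zero.1 heq
    have h4 : q k w ≠ 0 := by
      intro h5
      have h6 : p k w = 0 := by rw [h3, h5, mul_zero]
      rcases h2 with h2 | h2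
      · exact h2 h6
      · exact h2 h5
    apply hne k hk w hw
    rw [← h1]
    show mk (p k w) (q k w) = _
    rw [mk_of_ne h4, h3]
    congr 1
    field_simp
  have hpsi : ∀ k ≥ k₁, ∀ w ∈ ball z₀ δ,
      psi a (F^[k] (OnePoint.some w)) = q k w / (p k w - a * q k w) := by
    intro k hk w hw
    rw [← (hl_iterate h w k).1]
    exact psi_mk a _ _ (hden k hk w hw)
  have hlip : ∀ k ≥ k₁, ∀ w ∈ ball z₀ δ,
      chord (F^[k] (OnePoint.some w)) (F^[k] (OnePoint.some z₀)) ≤
        (1 + ‖a‖) ^ 2 * (2 / ρ / δ * ‖w - z₀‖) := by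
    intro k hk w hw
    set φ : ℂ → ℂ := fun y => q k y / (p k y - a * q k y) with hφ
    have hφd : DifferentiableOn ℂ φ (ball z₀ δ) := by
      apply DifferentiableOn.div
      · exact (hl_iterate_differentiable P Q k).2.differentiableOn
      · exact (hl_iterate_differentiable P Q k).1.differentiableOn.sub
          ((hl_iterate_differentiable P Q k).2.differentiableOn.const_mul a)
      · exact hden k hk
    have hφb : ∀ y ∈ ball z₀ δ, ‖φ y‖ ≤ 1 / ρ := by
      intro y hy
      have h1 : φ y = psi a (F^[k] (OnePoint.some y)) := (hpsi k hk y hy).symm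
      rw [h1]
      by_cases hinf : F^[k] (OnePoint.some y) = OnePoint.infty
      · rw [hinf, psi_infty, norm_zero]; positivity
      · obtain ⟨x, hx⟩ := OnePoint.ne_infty_iff_exists.1 hinf
        have h2 := hb k hk y hy x hx.symm
        rw [← hx, psi_some, norm_inv, ← one_div]
        exact one_div_le_one_div_of_le hρ h2
    have hmaps : MapsTo φ (ball z₀ δ) (closedBall (φ z₀) (2 / ρ)) := by
      intro y hy
      rw [mem_closedBall, dist_eq_norm]
      calc ‖φ y - φ z₀‖ ≤ ‖φ y‖ + ‖φ z₀‖ := norm_sub_le _ _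
        _ ≤ 1 / ρ + 1 / ρ := add_le_add (hφb y hy) (hφb z₀ (mem_ball_self hδ))
        _ = 2 / ρ := by ring
    have h1 := Complex.dist_le_div_mul_dist_of_mapsTo_ball hφd hmaps hw
    rw [dist_eq_norm, dist_eq_norm] at h1
    refine (chord_le_psi (hne k hk w hw) (hne k hk z₀ (mem_ball_self hδ))).trans ?_
    apply mul_le_mul_of_nonneg_left _ (by positivity)
    rw [hpsi k hk w hw, hpsi k hk z₀ (mem_ball_self hδ)]
    exact h1
  intro ε hε
  -- finitely many iterates
  have hfin : ∀ᶠ W in 𝓝 (OnePoint.some z₀ : OnePoint ℂ), ∀ k ∈ Finset.range k₁,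
      chord (F^[k] W) (F^[k] (OnePoint.some z₀)) < ε := by
    rw [Filter.eventually_all_finset]
    intro k _
    have h1 : Tendsto (fun W => F^[k] W) (𝓝 (OnePoint.some z₀)) (𝓝 (F^[k] (OnePoint.some z₀))) :=
      (hFc.iterate k).tendsto _
    exact ((tendsto_chord _).comp h1).eventually_lt_const hε
  have hrest : ∀ᶠ W in 𝓝 (OnePoint.some z₀ : OnePoint ℂ), ∀ k ≥ k₁,
      chord (F^[k] W) (F^[k] (OnePoint.some z₀)) < ε := by
    rw [OnePoint.nhds_coe_eq, Filter.eventually_map]
    have ha : 0 < (1 + ‖a‖) ^ 2 * (2 / ρ / δ) := by positivity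
    have h1 : ∀ᶠ w : ℂ in 𝓝 z₀, w ∈ ball z₀ δ ∧ ‖w - z₀‖ < ε / ((1 + ‖a‖) ^ 2 * (2 / ρ / δ)) := by
      apply Filter.Eventually.and (ball_mem_nhds z₀ hδ)
      have : ball z₀ (ε / ((1 + ‖a‖) ^ 2 * (2 / ρ / δ))) ∈ 𝓝 z₀ := ball_mem_nhds _ (by positivity)
      filter_upwards [this] with w hw
      rwa [mem_ball, dist_eq_norm] at hw
    filter_upwards [h1] with w hw k hk
    have h2 := hlip k hk w hw.1
    have h3 := hw.2
    rw [lt_div_iff₀ ha] at h3
    calc _ ≤ (1 + ‖a‖) ^ 2 * (2 / ρ / δ * ‖w - z₀‖) := h2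
      _ = ‖w - z₀‖ * ((1 + ‖a‖) ^ 2 * (2 / ρ / δ)) := by ring
      _ < ε := h3
  filter_upwards [hfin, hrest] with W h1 h2 k
  rcases lt_or_ge k k₁ with hk | hk
  · exact h1 k (Finset.mem_range.2 hk)
  · exact h2 k hk

/-- Let `W` be an open set which is mapped into itself and omits a disc. Every point of the plane
which is eventually mapped into `W` is in the Fatou set. -/
theorem mem_fatouSet_of_trap {P Q : ℂ[X]} (h : Reduced P Q) {W : Set (OnePoint ℂ)}
    (hW : IsOpen W) (hFW : ∀ Z ∈ W, ratMap P Q Z ∈ W) {a : ℂ} {ρ : ℝ} (hρ : 0 < ρ)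
    (ha : ∀ y : ℂ, OnePoint.some y ∈ W → ρ ≤ ‖y - a‖) {z : ℂ} {k₁ : ℕ}
    (hz : (ratMap P Q)^[k₁] (OnePoint.some z) ∈ W) :
    OnePoint.some z ∈ fatouSet (ratMap P Q) := by
  set F := ratMap P Q with hF
  have hFc : Continuous F := continuous_ratMap h
  have hit : ∀ j, ∀ Z ∈ W, F^[j] Z ∈ W := by
    intro j
    induction j with
    | zero => intro Z hZ; exact hZ
    | succ j ih => intro Z hZ; rw [Function.iterate_succ_apply]; exact ih _ (hFW Z hZ)
  have hV : IsOpen ((OnePoint.some : ℂ → OnePoint ℂ) ⁻¹' ((F^[k₁]) ⁻¹' W)) :=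
    (hW.preimage (hFc.iterate k₁)).preimage OnePoint.continuous_coe
  have hall : ∀ w ∈ ((OnePoint.some : ℂ → OnePoint ℂ) ⁻¹' ((F^[k₁]) ⁻¹' W)),
      EquicontAt F (OnePoint.some w) := by
    intro w hw
    obtain ⟨δ, hδ, hball⟩ := Metric.isOpen_iff.1 hV w hw
    refine equicontAt_of_omit h (a := a) (k₁ := k₁) hδ hρ ?_
    intro k hk v hv y hy
    apply ha
    rw [← hy]
    obtain ⟨j, rfl⟩ : ∃ j, k = j + k₁ := ⟨k - k₁, by omega⟩
    rw [Function.iterate_add_apply]
    exact hit j _ (hball hv)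
  rw [fatouSet, mem_interior]
  refine ⟨OnePoint.some '' ((OnePoint.some : ℂ → OnePoint ℂ) ⁻¹' ((F^[k₁]) ⁻¹' W)), ?_,
    OnePoint.isOpen_image_coe.2 hV, ⟨z, hz, rfl⟩⟩
  rintro _ ⟨w, hw, rfl⟩
  exact hall w hw

end Pool.Agent.helper98.Rat
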