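import Pool.Agent.helper98.Rat.Lift
import Pool.Agent.helper98.Rat.Equi
import Pool.Agent.helper98.Rat.AreaZero

/-!
# A criterion for Julia sets of area zero
-/

set_option autoImplicit false

open Polynomial Topology Filter MeasureTheory Set Metric

namespace Pool.Agent.helper98.Rat

/-- The planar part of the Julia set. -/
def planarJulia (F : OnePoint ℂ → OnePoint ℂ) : Set ℂ :=
  {z : ℂ | OnePoint.some z ∈ juliaSet F}

/-- **Criterion.** The map sends the complement of the compact set `A` into itself with some space,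
is a covering over a neighbourhood of `A`, and the inverse branches contract. -/
theorem volume_planarJulia_eq_zero {P Q : ℂ[X]} (h : Reduced P Q) {A : Set ℂ} (hA : IsCompact A)
    {ρ : ℝ} (hρ : 0 < ρ) (hball : ∃ a r, 0 < r ∧ ball a r ⊆ A)
    (h1 : ∀ (Z : OnePoint ℂ) (y u : ℂ), y ∈ A → ‖u - y‖ ≤ ρ →
      ratMap P Q Z = OnePoint.some u → ∃ z ∈ A, Z = OnePoint.some z)
    (h2 : ∀ z y u : ℂ, y ∈ A → ‖u - y‖ ≤ ρ → ratMap P Q (OnePoint.some z) = OnePoint.some u →
      deriv (toPlane (ratMap P Q)) z ≠ 0)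
    (h3 : ∀ y ∈ A, ∀ g : ℂ → ℂ, DifferentiableOn ℂ g (ball y ρ) →
      (∀ u ∈ ball y ρ, ratMap P Q (OnePoint.some (g u)) = OnePoint.some u) →
      ∀ u ∈ ball y (ρ / 2), ‖deriv g u‖ ≤ 1 / 4) :
    volume (planarJulia (ratMap P Q)) = 0 := by
  set F := ratMap P Q with hF
  have hFc : Continuous F := continuous_ratMap h
  have hinf : ∀ y ∈ A, ∀ u, ‖u - y‖ ≤ ρ → F OnePoint.infty ≠ OnePoint.some u := by
    intro y hy u hu hcon
    obtain ⟨z, -, hz⟩ := h1 OnePoint.infty y u hy hu hcon
    exact absurd hz (by simp)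
  have hAc : IsClosed ((OnePoint.some : ℂ → OnePoint ℂ) '' A) :=
    (hA.image OnePoint.continuous_coe).isClosed
  -- the set of points whose orbits stay in `A`
  set S : Set ℂ := {z | ∀ k, F^[k] (OnePoint.some z) ∈ (OnePoint.some : ℂ → OnePoint ℂ) '' A}
    with hS
  have hSA : S ⊆ A := by
    intro z hz
    obtain ⟨w, hw, hwz⟩ := hz 0
    have := OnePoint.coe_injective hwz
    rw [← this]; exact hw
  have hScl : IsClosed S := by
    have : S = ⋂ k : ℕ, (fun z : ℂ => F^[k] (OnePoint.some z)) ⁻¹'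
        ((OnePoint.some : ℂ → OnePoint ℂ) '' A) := by
      ext z; simp [hS]
    rw [this]
    exact isClosed_iInter fun k => hAc.preimage ((hFc.iterate k).comp OnePoint.continuous_coe)
  have hSc : IsCompact S := hA.of_isClosed_subset hScl hSA
  have hFS : ∀ z ∈ S, F (OnePoint.some z) = OnePoint.some (toPlane F z) ∧ toPlane F z ∈ S := by
    intro z hz
    obtain ⟨w, hw, hwz⟩ := hz 1
    have h4 : F (OnePoint.some z) = OnePoint.some w := hwz.symm
    have h5 := ratMap_eq_some_iff.1 h4
    have h6 : toPlane F z = w := h5.2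
    rw [h6]
    refine ⟨h4, fun k => ?_⟩
    rw [← h4, ← Function.iterate_succ_apply]
    exact hz (k + 1)
  -- bound for the derivative
  obtain ⟨M, hM0, hM⟩ : ∃ M > 0, ∀ z y u : ℂ, y ∈ A → ‖u - y‖ ≤ ρ →
      F (OnePoint.some z) = OnePoint.some u → ‖deriv (toPlane F) z‖ ≤ M := by
    set N : Set ℂ := {z | ∃ y ∈ A, ∃ u, ‖u - y‖ ≤ ρ ∧ F (OnePoint.some z) = OnePoint.some u}
      with hN
    have hNA : N ⊆ A := by
      rintro z ⟨y, hy, u, hu, hz⟩
      obtain ⟨w, hw, hwz⟩ := h1 _ y u hy hu hz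
      rw [OnePoint.coe_injective hwz]; exact hw
    have hNcl : IsClosed N := by
      have h4 : N = (fun z : ℂ => F (OnePoint.some z)) ⁻¹'
          ((OnePoint.some : ℂ → OnePoint ℂ) '' (cthickening ρ A)) := by
        ext z
        rw [hA.cthickening_eq_biUnion_closedBall hρ.le]
        constructor
        · rintro ⟨y, hy, u, hu, hz⟩
          refine ⟨u, ?_, hz.symm⟩
          simp only [mem_iUnion]
          exact ⟨y, hy, by rw [mem_closedBall, dist_eq_norm]; exact hu⟩
        · rintro ⟨u, hu, hz⟩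
          simp only [mem_iUnion] at hu
          obtain ⟨y, hy, hu⟩ := hu
          rw [mem_closedBall, dist_eq_norm] at hu
          exact ⟨y, hy, u, hu, hz.symm⟩
      rw [h4]
      apply IsClosed.preimage (hFc.comp OnePoint.continuous_coe)
      exact (hA.cthickening.image OnePoint.continuous_coe).isClosed
    have hNc : IsCompact N := hA.of_isClosed_subset hNcl hNA
    have hcont : ContinuousOn (fun z => ‖deriv (toPlane F) z‖) N := by
      apply ContinuousOn.norm
      rintro z ⟨y, hy, u, hu, hz⟩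
      exact (analyticAt_toPlane (ratMap_eq_some_iff.1 hz).1).deriv.continuousAt.continuousWithinAt
    obtain ⟨M, hM⟩ := hNc.exists_bound_of_continuousOn hcont
    refine ⟨max M 1, by positivity, fun z y u hy hu hz => ?_⟩
    have := hM z ⟨y, hy, u, hu, hz⟩
    rw [norm_norm] at this
    exact this.trans (le_max_left _ _)
  -- area of `S`
  have hS0 : volume S = 0 := by
    apply area_zero (f := toPlane F) (ρ := ρ / 2) (M := M) hSc (fun z hz => (hFS z hz).2)
      (by positivity) hM0
    intro z hz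
    have hz1 := hFS z hz
    have hyA : toPlane F z ∈ A := hSA hz1.2
    obtain ⟨g, hgd, hgc, hg⟩ := exists_inverse h (y := toPlane F z) (r := ρ) hρ
      (fun u hu => hinf _ hyA u (by rw [← dist_eq_norm]; exact (mem_ball.1 hu).le))
      (fun w u hu hw => h2 w _ u hyA (by rw [← dist_eq_norm]; exact (mem_ball.1 hu).le) hw)
      hz1.1
    have hsub : ball (toPlane F z) (ρ / 2) ⊆ ball (toPlane F z) ρ :=
      ball_subset_ball (by linarith)
    refine ⟨g, hgd.mono hsub, hgc, ?_, ?_, ?_⟩
    · intro u hu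
      exact (ratMap_eq_some_iff.1 (hg u (hsub hu)).1).2
    · intro u hu
      have h4 := (hg u (hsub hu)).2
      have h5 : ‖deriv (toPlane F) (g u)‖ * ‖deriv g u‖ = 1 := by
        rw [← norm_mul, h4, norm_one]
      have h6 := hM (g u) _ u hyA (by rw [← dist_eq_norm]; exact (mem_ball.1 (hsub hu)).le)
        (hg u (hsub hu)).1
      calc (1 : ℝ) = ‖deriv (toPlane F) (g u)‖ * ‖deriv g u‖ := h5.symm
        _ ≤ M * ‖deriv g u‖ := by gcongr
    · exact h3 _ hyA g hgd (fun u hu => (hg u hu).1)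
  -- the Julia set is contained in `S`
  refine measure_mono_null ?_ hS0
  intro z hz
  by_contra hzS
  apply hz
  obtain ⟨k, hk⟩ : ∃ k, F^[k] (OnePoint.some z) ∉ (OnePoint.some : ℂ → OnePoint ℂ) '' A := by
    by_contra hcon
    push Not at hcon
    exact hzS hcon
  obtain ⟨a, r, hr, har⟩ := hball
  refine mem_fatouSet_of_trap h (W := ((OnePoint.some : ℂ → OnePoint ℂ) '' A)ᶜ) hAc.isOpen_compl
    ?_ (a := a) hr ?_ hk
  · intro Z hZ hcon
    obtain ⟨u, hu, hFu⟩ := hcon
    obtain ⟨w, hw, hwZ⟩ := h1 Z u u hu (by simpa using hρ.le) hFu.symm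
    exact hZ ⟨w, hw, hwZ.symm⟩
  · intro y hy
    by_contra hlt
    rw [not_le] at hlt
    apply hy
    refine ⟨y, har ?_, rfl⟩
    rw [mem_ball, dist_eq_norm]; exact hlt

/-- No invariant line field when the Julia set has area zero. -/
lemma not_hasInvariantLineField {F : OnePoint ℂ → OnePoint ℂ}
    (h : volume (planarJulia F) = 0) : ¬ HasInvariantLineField F := by
  rintro ⟨μ, -, -, h3, h4, -⟩
  have : volume {z | μ z ≠ 0} = 0 := measure_mono_null (fun z hz => h4 z hz) h
  rw [this] at h3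
  exact lt_irrefl _ h3

end Pool.Agent.helper98.Rat
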