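import Pool.Agent.helper98.Rat.Ends
import Pool.Agent.helper98.Rat.Setup

/-!
# The family `z ↦ h (z ^ n) + c` for a rational map `h`
-/

set_option autoImplicit false

open Polynomial Topology Filter MeasureTheory Set Metric

namespace Pool.Agent.helper98.Rat

/-- The rational map `z ↦ P (z ^ n) / Q (z ^ n) + c` of the sphere. -/
noncomputable def powFamily (P Q : ℂ[X]) (n : ℕ) (c : ℂ) : OnePoint ℂ → OnePoint ℂ :=
  ratMap (expand ℂ n P + C c * expand ℂ n Q) (expand ℂ n Q)

/-- The finite values taken by `h = P / Q` at its critical points in the plane, at `0` and at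
`∞`. -/
def freeValues (P Q : ℂ[X]) : Set ℂ :=
  {v | (∃ w : ℂ, ratMap P Q (OnePoint.some w) = OnePoint.some v ∧
      deriv (toPlane (ratMap P Q)) w = 0) ∨
    ratMap P Q (OnePoint.some 0) = OnePoint.some v ∨
    ratMap P Q OnePoint.infty = OnePoint.some v}

variable {P Q : ℂ[X]} {n : ℕ} {c : ℂ}

lemma isCoprime_powFamily (h : IsCoprime P Q) :
    IsCoprime (expand ℂ n P + C c * expand ℂ n Q) (expand ℂ n Q) := by
  have h1 : IsCoprime (expand ℂ n P) (expand ℂ n Q) := h.map (expand ℂ n).toRingHom
  exact h1.add_mul_right_left (C c)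

lemma reduced_powFamily (h : IsCoprime P Q) :
    Reduced (expand ℂ n P + C c * expand ℂ n Q) (expand ℂ n Q) :=
  reduced_of_isCoprime (isCoprime_powFamily h)

lemma powFamily_some_iff {z u : ℂ} :
    powFamily P Q n c (OnePoint.some z) = OnePoint.some u ↔
      Q.eval (z ^ n) ≠ 0 ∧ P.eval (z ^ n) / Q.eval (z ^ n) + c = u := by
  rw [powFamily, ratMap_eq_some_iff, toPlane_ratMap]
  simp only [eval_add, eval_mul, eval_C, expand_eval]
  constructor
  · rintro ⟨h1, h2⟩
    refine ⟨h1, ?_⟩
    rw [← h2]; field_simp
  · rintro ⟨h1, h2⟩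
    refine ⟨h1, ?_⟩
    rw [← h2]; field_simp

lemma powFamily_some_ratMap {z u : ℂ}
    (h : powFamily P Q n c (OnePoint.some z) = OnePoint.some u) :
    ratMap P Q (OnePoint.some (z ^ n)) = OnePoint.some (u - c) := by
  obtain ⟨h1, h2⟩ := powFamily_some_iff.1 h
  rw [ratMap_eq_some_iff, toPlane_ratMap]
  exact ⟨h1, by rw [← h2]; ring⟩

lemma dg_powFamily (hn : 0 < n) (h : Reduced P Q) :
    dg (expand ℂ n P + C c * expand ℂ n Q) (expand ℂ n Q) = dg P Q * n := by
  have hP : (expand ℂ n P).natDegree = P.natDegree * n := natDegree_expand n P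
  have hQ : (expand ℂ n Q).natDegree = Q.natDegree * n := natDegree_expand n Q
  have hle : (expand ℂ n P + C c * expand ℂ n Q).natDegree ≤ dg P Q * n := by
    refine (natDegree_add_le _ _).trans (max_le ?_ ?_)
    · rw [hP]; exact Nat.mul_le_mul_right _ (le_max_left _ _)
    · refine (natDegree_C_mul_le _ _).trans ?_
      rw [hQ]; exact Nat.mul_le_mul_right _ (le_max_right _ _)
  apply le_antisymm
  · exact max_le hle (by rw [hQ]; exact Nat.mul_le_mul_right _ (le_max_right _ _))
  · by_cases hq : Q.coeff (dg P Q) = 0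
    · have hp : P.coeff (dg P Q) ≠ 0 := by
        rcases h.top with h1 | h1
        · exact h1
        · exact absurd hq h1
      refine le_trans ?_ (le_max_left _ _)
      apply le_natDegree_of_ne_zero
      rw [coeff_add, coeff_C_mul, coeff_expand_mul hn, coeff_expand_mul hn, hq, mul_zero, add_zero]
      exact hp
    · refine le_trans ?_ (le_max_right _ _)
      apply le_natDegree_of_ne_zero
      rw [coeff_expand_mul hn]
      exact hq

lemma powFamily_infty_ratMap (hn : 0 < n) (h : Reduced P Q) {u : ℂ}
    (hu : powFamily P Q n c OnePoint.infty = OnePoint.some u) :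
    ratMap P Q OnePoint.infty = OnePoint.some (u - c) := by
  rw [powFamily, ratMap_infty, dg_powFamily hn h, coeff_add, coeff_C_mul, coeff_expand_mul hn,
    coeff_expand_mul hn] at hu
  obtain ⟨h1, h2⟩ := mk_eq_some hu
  rw [ratMap_infty, mk_of_ne h1]
  congr 1
  field_simp
  linear_combination h2

lemma hasDerivAt_powFamily {z : ℂ} (hQ : Q.eval (z ^ n) ≠ 0) :
    HasDerivAt (toPlane (powFamily P Q n c))
      (deriv (toPlane (ratMap P Q)) (z ^ n) * (n * z ^ (n - 1))) z := by
  have h1 : HasDerivAt (toPlane (ratMap P Q)) (deriv (toPlane (ratMap P Q)) (z ^ n)) (z ^ n) :=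
    (analyticAt_toPlane hQ).differentiableAt.hasDerivAt
  have h2 : HasDerivAt (fun z : ℂ => z ^ n) (n * z ^ (n - 1)) z := hasDerivAt_pow n z
  have h3 := (h1.comp z h2).add_const c
  refine h3.congr_of_eventuallyEq ?_
  have hopen : IsOpen {z : ℂ | Q.eval (z ^ n) ≠ 0} :=
    isOpen_ne_fun (Q.continuous.comp (continuous_pow n)) continuous_const
  filter_upwards [hopen.mem_nhds hQ] with w hw
  have h4 : powFamily P Q n c (OnePoint.some w) =
      OnePoint.some (P.eval (w ^ n) / Q.eval (w ^ n) + c) := powFamily_some_iff.2 ⟨hw, rfl⟩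
  show toPlane (powFamily P Q n c) w = toPlane (ratMap P Q) (w ^ n) + c
  rw [toPlane, h4, toPlane_ratMap]
  rfl

/-- Critical points of `powFamily` have values `v + c` with `v` a free value. -/
lemma deriv_powFamily_ne_zero (hn : 0 < n) {z u : ℂ}
    (hz : powFamily P Q n c (OnePoint.some z) = OnePoint.some u)
    (hu : u - c ∉ freeValues P Q) : deriv (toPlane (powFamily P Q n c)) z ≠ 0 := by
  have h1 := powFamily_some_ratMap hz
  have hQ := (powFamily_some_iff.1 hz).1
  rw [(hasDerivAt_powFamily hQ).deriv]
  intro hcon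
  apply hu
  rcases mul_eq_zero.1 hcon with h2 | h2
  · exact Or.inl ⟨z ^ n, h1, h2⟩
  · rcases mul_eq_zero.1 h2 with h3 | h3
    · exact absurd h3 (by exact_mod_cast hn.ne')
    · have hz0 : z = 0 := by
        by_contra h4
        exact pow_ne_zero _ h4 h3
      right; left
      rw [hz0, zero_pow hn.ne'] at h1
      exact h1

/-- The Wronskian. -/
noncomputable def wron (P Q : ℂ[X]) : ℂ[X] := derivative P * Q - P * derivative Q

lemma wron_ne_zero (h : IsCoprime P Q) (hD : 0 < max P.natDegree Q.natDegree) :
    wron P Q ≠ 0 := by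
  intro h0
  have h1 : derivative P * Q = P * derivative Q := sub_eq_zero.1 h0
  have hP : derivative P = 0 := by
    have h2 : P ∣ derivative P := by
      apply h.dvd_of_dvd_mul_right
      rw [h1]; exact dvd_mul_right _ _
    by_contra hne
    have h3 := natDegree_le_of_dvd h2 hne
    have h4 : 0 < P.natDegree := by
      by_contra h5
      apply hne
      have h6 : P.natDegree = 0 := by omega
      rw [eq_C_of_natDegree_eq_zero h6, derivative_C]
    have h5 := natDegree_derivative_lt h4.ne'
    omega
  have hQ : derivative Q = 0 := by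
    have h2 : Q ∣ derivative Q := by
      apply h.symm.dvd_of_dvd_mul_left
      rw [← h1]; exact dvd_mul_left _ _
    by_contra hne
    have h3 := natDegree_le_of_dvd h2 hne
    have h4 : 0 < Q.natDegree := by
      by_contra h5
      apply hne
      have h6 : Q.natDegree = 0 := by omega
      rw [eq_C_of_natDegree_eq_zero h6, derivative_C]
    have h5 := natDegree_derivative_lt h4.ne'
    omega
  have h2 := derivative_eq_zero.1 hP
  have h3 := derivative_eq_zero.1 hQ
  rw [h2, h3] at hD
  simp at hD

lemma natDegree_wron_lt (hD : 0 < max P.natDegree Q.natDegree) :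
    (wron P Q).natDegree ≤ 2 * max P.natDegree Q.natDegree - 1 := by
  have hP : P.natDegree ≤ max P.natDegree Q.natDegree := le_max_left _ _
  have hQ : Q.natDegree ≤ max P.natDegree Q.natDegree := le_max_right _ _
  have h1 : (derivative P * Q).natDegree ≤ 2 * max P.natDegree Q.natDegree - 1 := by
    have h2 := natDegree_mul_le (p := derivative P) (q := Q)
    have h3 := natDegree_derivative_le P
    omega
  have h2 : (P * derivative Q).natDegree ≤ 2 * max P.natDegree Q.natDegree - 1 := by
    have h2 := natDegree_mul_le (p := P) (q := derivative Q)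
    have h3 := natDegree_derivative_le Q
    omega
  exact (natDegree_sub_le _ _).trans (max_le h1 h2)

lemma wron_eval_eq_zero {w v : ℂ} (h1 : ratMap P Q (OnePoint.some w) = OnePoint.some v)
    (h2 : deriv (toPlane (ratMap P Q)) w = 0) : (wron P Q).eval w = 0 := by
  have hQ := (ratMap_eq_some_iff.1 h1).1
  have h3 : HasDerivAt (toPlane (ratMap P Q))
      (((derivative P).eval w * Q.eval w - P.eval w * (derivative Q).eval w) / Q.eval w ^ 2) w := by
    rw [toPlane_ratMap']
    exact (P.hasDerivAt w).fun_div (Q.hasDerivAt w) hQ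
  rw [h3.deriv, div_eq_zero_iff] at h2
  rcases h2 with h2 | h2
  · rw [wron, eval_sub, eval_mul, eval_mul]; exact h2
  · exact absurd h2 (pow_ne_zero _ hQ)

open Classical in
/-- The free values are contained in a finite set of at most `2 D + 1` elements. -/
lemma exists_finset_freeValues (h : IsCoprime P Q) (hD : 0 < max P.natDegree Q.natDegree) :
    ∃ V : Finset ℂ, freeValues P Q ⊆ V ∧ V.card ≤ 2 * max P.natDegree Q.natDegree + 1 := by
  have hw := wron_ne_zero h hD
  refine ⟨((wron P Q).roots.toFinset.image (toPlane (ratMap P Q))) ∪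
    {toPlane (ratMap P Q) 0, (ratMap P Q OnePoint.infty).elim 0 id}, ?_, ?_⟩
  · rintro v (⟨w, h1, h2⟩ | h1 | h1)
    · rw [Finset.coe_union]
      left
      rw [Finset.coe_image]
      refine ⟨w, ?_, (ratMap_eq_some_iff.1 h1).2⟩
      rw [Finset.mem_coe, Multiset.mem_toFinset, mem_roots hw]
      exact wron_eval_eq_zero h1 h2
    · rw [Finset.coe_union]
      right
      have := (ratMap_eq_some_iff.1 h1).2
      rw [← this]
      simp
    · rw [Finset.coe_union]
      right
      rw [h1]
      simp
  · refine (Finset.card_union_le _ _).trans ?_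
    have h1 : ((wron P Q).roots.toFinset.image (toPlane (ratMap P Q))).card ≤
        2 * max P.natDegree Q.natDegree - 1 := by
      refine Finset.card_image_le.trans ?_
      refine (Multiset.toFinset_card_le _).trans ?_
      exact (card_roots' _).trans (natDegree_wron_lt hD)
    have h2 : ({toPlane (ratMap P Q) 0, (ratMap P Q OnePoint.infty).elim 0 id} :
        Finset ℂ).card ≤ 2 := Finset.card_le_two
    omega

end Pool.Agent.helper98.Rat
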