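import Pool.Agent.helper98.Rat.Family

/-!
# Large parameters: the Julia set is totally disconnected and of area zero
-/

set_option autoImplicit false

open Polynomial Topology Filter MeasureTheory Set Metric

namespace Pool.Agent.helper98.Rat

variable {P Q : ℂ[X]}

/-- Large values of `h = P / Q` are not taken very far away. -/
lemma exists_growth (h : Reduced P Q) : ∃ C ≥ 1, ∀ w : ℂ, Q.eval w ≠ 0 →
    C ≤ ‖P.eval w / Q.eval w‖ → ‖w‖ ≤ C * ‖P.eval w / Q.eval w‖ := by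
  set p : ℂ → ℂ := fun x => hom (dg P Q) P 1 x with hp
  set q : ℂ → ℂ := fun x => hom (dg P Q) Q 1 x with hq
  have hpd : Differentiable ℂ p := hom_differentiable _ _
  have hqd : Differentiable ℂ q := hom_differentiable _ _
  have h0 : p 0 ≠ 0 ∨ q 0 ≠ 0 := by simpa [hp, hq, hom_zero_right] using h.top
  -- in terms of `x = 1 / w`
  have hmain : ∃ C > 0, ∃ r > 0, ∀ x : ℂ, x ≠ 0 → ‖x‖ ≤ r → q x ≠ 0 → C ≤ ‖p x / q x‖ →
      ‖x‖⁻¹ ≤ C * ‖p x / q x‖ := by
    by_cases hq0 : q 0 = 0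
    · have hp0 : p 0 ≠ 0 := by tauto
      have hpn : 0 < ‖p 0‖ := norm_pos_iff.2 hp0
      have h1 : ∀ᶠ x in 𝓝 (0 : ℂ), ‖p 0‖ / 2 < ‖p x‖ :=
        (hpd.continuous.norm.tendsto 0).eventually_const_lt (by linarith)
      obtain ⟨K, hK, h3⟩ := (hqd 0).hasDerivAt.isBigO_sub.exists_pos
      rw [Asymptotics.IsBigOWith] at h3
      obtain ⟨r, hr, hball⟩ := nhds_basis_closedBall.eventually_iff.1 (h1.and h3)
      refine ⟨2 * K / ‖p 0‖, by positivity, r, hr, fun x hx0 hx hqx _ => ?_⟩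
      obtain ⟨h4, h5⟩ := hball (by rw [mem_closedBall, dist_zero_right]; exact hx)
      rw [hq0, sub_zero, sub_zero] at h5
      have h6 : 0 < ‖q x‖ := norm_pos_iff.2 hqx
      have h7 : 0 < ‖x‖ := norm_pos_iff.2 hx0
      rw [norm_div]
      have h8 : ‖x‖⁻¹ ≤ K / ‖q x‖ := by
        rw [inv_eq_one_div, div_le_div_iff₀ h7 h6]; linarith
      refine h8.trans ?_
      rw [show 2 * K / ‖p 0‖ * (‖p x‖ / ‖q x‖) = K / ‖q x‖ * (2 * ‖p x‖ / ‖p 0‖) by
        field_simp]
      apply le_mul_of_one_le_right (by positivity)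
      rw [le_div_iff₀ hpn]; linarith
    · have h1 : Tendsto (fun x => ‖p x / q x‖) (𝓝 0) (𝓝 ‖p 0 / q 0‖) :=
        ((hpd.continuous.tendsto 0).div (hqd.continuous.tendsto 0) hq0).norm
      have h2 : ∀ᶠ x in 𝓝 (0 : ℂ), ‖p x / q x‖ < ‖p 0 / q 0‖ + 1 :=
        h1.eventually_lt_const (by linarith)
      obtain ⟨r, hr, hball⟩ := nhds_basis_closedBall.eventually_iff.1 h2
      refine ⟨‖p 0 / q 0‖ + 1, by positivity, r, hr, fun x _ hx _ hC => ?_⟩
      have := hball (by rw [mem_closedBall, dist_zero_right]; exact hx)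
      linarith
  obtain ⟨C, hC, r, hr, hprop⟩ := hmain
  refine ⟨max 1 (max C r⁻¹), le_max_left _ _, fun w hQ hw => ?_⟩
  have hC1 : C ≤ max 1 (max C r⁻¹) := (le_max_left _ _).trans (le_max_right _ _)
  have hC2 : r⁻¹ ≤ max 1 (max C r⁻¹) := (le_max_right _ _).trans (le_max_right _ _)
  have hC3 : (1 : ℝ) ≤ max 1 (max C r⁻¹) := le_max_left _ _
  set M := max 1 (max C r⁻¹) with hM
  by_cases hw0 : w = 0
  · rw [hw0, norm_zero]; positivity
  · rcases le_or_gt ‖w⁻¹‖ r with hle | hgt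
    · rw [div_eq_hom hw0] at hw ⊢
      have h1 := hprop w⁻¹ (inv_ne_zero hw0) hle (hom_ne_zero hw0 hQ) (hC1.trans hw)
      rw [norm_inv, inv_inv] at h1
      refine h1.trans ?_
      gcongr
    · have h1 : ‖w‖ ≤ r⁻¹ := by
        rw [norm_inv] at hgt
        have h2 : 0 < ‖w‖ := norm_pos_iff.2 hw0
        rw [le_inv_comm₀ h2 hr]
        exact hgt.le
      calc ‖w‖ ≤ M * 1 := by linarith
        _ ≤ M * ‖P.eval w / Q.eval w‖ := by
            gcongr
            exact hC3.trans hw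

/-- **Large parameters.** -/
theorem volume_zero_large (h : IsCoprime P Q) (hD : 0 < max P.natDegree Q.natDegree) :
    ∃ R₀ : ℝ, ∀ n ≥ 2, ∀ c : ℂ, R₀ ≤ ‖c‖ → volume (planarJulia (powFamily P Q n c)) = 0 := by
  have hred := reduced_of_isCoprime h
  obtain ⟨C, hC1, hC⟩ := exists_growth hred
  obtain ⟨V, hV, -⟩ := exists_finset_freeValues h hD
  obtain ⟨B, hB⟩ : ∃ B : ℝ, ∀ v ∈ freeValues P Q, ‖v‖ ≤ B := by
    obtain ⟨B, hB⟩ := (V.finite_toSet.subset hV).isBounded.exists_norm_le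
    exact ⟨B, hB⟩
  refine ⟨max (2048 * C) (2 * |B| + 1), fun n hn c hc => ?_⟩
  have hc1 : 2048 * C ≤ ‖c‖ := (le_max_left _ _).trans hc
  have hc2 : 2 * |B| + 1 ≤ ‖c‖ := (le_max_right _ _).trans hc
  have hnpos : 0 < n := by omega
  have hc0 : 0 < ‖c‖ := by linarith
  set T : ℝ := 2 * C * ‖c‖ with hT
  have hT1 : 1 ≤ T := by nlinarith
  set R : ℝ := Real.sqrt T with hR
  have hR0 : 0 ≤ R := Real.sqrt_nonneg _
  have hRsq : R ^ 2 = T := Real.sq_sqrt (by linarith)
  have hRc : R ≤ ‖c‖ / 32 := by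
    apply Real.sqrt_le_iff.2
    refine ⟨by positivity, ?_⟩
    rw [hT, div_pow]
    nlinarith
  have hR1 : 1 ≤ R := by
    rw [hR, Real.one_le_sqrt]; exact hT1
  have hsmall : ∀ y u : ℂ, ‖y‖ ≤ R → ‖u - y‖ ≤ ‖c‖ / 4 → ‖u‖ ≤ ‖c‖ / 2 := by
    intro y u hy hu
    have h1 : ‖u‖ ≤ ‖u - y‖ + ‖y‖ := by
      have := norm_add_le (u - y) y
      rwa [sub_add_cancel] at this
    linarith
  have hnotfree : ∀ u : ℂ, ‖u‖ ≤ ‖c‖ / 2 → u - c ∉ freeValues P Q := by
    intro u hu hcon
    have h1 := hB _ hcon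
    have h2 : ‖c‖ ≤ ‖u‖ + ‖u - c‖ := by
      have := norm_sub_le u (u - c)
      rwa [sub_sub_cancel] at this
    have := le_abs_self B
    linarith
  have key : ∀ z u : ℂ, powFamily P Q n c (OnePoint.some z) = OnePoint.some u →
      ‖u‖ ≤ ‖c‖ / 2 → ‖z‖ ≤ R := by
    intro z u hz hu
    obtain ⟨hq, hval⟩ := powFamily_some_iff.1 hz
    have h1 : P.eval (z ^ n) / Q.eval (z ^ n) = u - c := by rw [← hval]; ring
    have h2 : ‖u - c‖ ≤ 3 / 2 * ‖c‖ := by
      have := norm_sub_le u c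
      linarith
    have h3 : ‖c‖ / 2 ≤ ‖u - c‖ := by
      have := norm_sub_le u (u - c)
      rw [sub_sub_cancel] at this
      linarith
    have h4 := hC (z ^ n) hq (by rw [h1]; linarith)
    rw [h1, norm_pow] at h4
    have h5 : ‖z‖ ^ n ≤ T := by
      refine h4.trans ?_
      rw [hT]
      nlinarith
    have h6 : ‖z‖ ^ 2 ≤ T := by
      rcases le_total ‖z‖ 1 with h7 | h7
      · exact (pow_le_one₀ (norm_nonneg _) h7).trans hT1
      · exact (pow_le_pow_right₀ h7 hn).trans h5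
    exact Real.le_sqrt_of_sq_le h6
  refine volume_planarJulia_eq_zero (reduced_powFamily h) (isCompact_closedBall (0 : ℂ) R)
    (ρ := ‖c‖ / 4) (by positivity) ⟨0, R, by linarith, ball_subset_closedBall⟩ ?_ ?_ ?_
  · intro Z y u hy hu hZ
    rw [mem_closedBall, dist_zero_right] at hy
    have hu1 := hsmall y u hy hu
    induction Z using OnePoint.rec with
    | coe z =>
      refine ⟨z, ?_, rfl⟩
      rw [mem_closedBall, dist_zero_right]
      exact key z u hZ hu1
    | infty =>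
      exfalso
      apply hnotfree u hu1
      right; right
      exact powFamily_infty_ratMap hnpos hred hZ
  · intro z y u hy hu hz
    rw [mem_closedBall, dist_zero_right] at hy
    exact deriv_powFamily_ne_zero hnpos hz (hnotfree u (hsmall y u hy hu))
  · intro y hy g hg hgF u hu
    rw [mem_closedBall, dist_zero_right] at hy
    have hcl : closedBall u (‖c‖ / 4 / 2) ⊆ ball y (‖c‖ / 4) := by
      apply closedBall_subset_ball'
      have := mem_ball.1 hu
      linarith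
    have h1 : ‖deriv g u‖ ≤ R / (‖c‖ / 4 / 2) := by
      apply Complex.norm_deriv_le_of_forall_mem_sphere_norm_le (by positivity)
        (hg.diffContOnCl_ball hcl)
      intro v hv
      have hvb := hcl (sphere_subset_closedBall hv)
      exact key (g v) v (hgF v hvb) (hsmall y v hy (by
        rw [← dist_eq_norm]; exact (mem_ball.1 hvb).le))
    refine h1.trans ?_
    rw [div_le_iff₀ (by positivity)]
    linarith

end Pool.Agent.helper98.Rat
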