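import Pool.Agent.helper98.Rat.Annulus
import Pool.Agent.helper98.Rat.Large

/-!
# The exceptional parameters have small area
-/

set_option autoImplicit false

open Polynomial Topology Filter MeasureTheory Set Metric

namespace Pool.Agent.helper98.Rat

open Pool.Agent.helper98.ILF (volume_closedBall_eq volume_ball_eq)

/-- The area of a thin annulus. -/
lemma volume_thin_annulus (v : ℂ) {η : ℝ} (hη0 : 0 ≤ η) (hη1 : η ≤ 1) :
    volume {c : ℂ | |‖c + v‖ - 1| ≤ η} ≤ ENNReal.ofReal (4 * Real.pi * η) := by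
  have hsub : {c : ℂ | |‖c + v‖ - 1| ≤ η} ⊆ closedBall (-v) (1 + η) \ ball (-v) (1 - η) := by
    intro c hc
    have h1 := abs_le.1 (show |‖c + v‖ - 1| ≤ η from hc)
    refine ⟨?_, ?_⟩
    · rw [mem_closedBall, dist_eq_norm, sub_neg_eq_add]; linarith [h1.2]
    · rw [mem_ball, dist_eq_norm, sub_neg_eq_add, not_lt]; linarith [h1.1]
  refine (measure_mono hsub).trans ?_
  have hb : ball (-v) (1 - η) ⊆ closedBall (-v) (1 + η) :=
    ball_subset_closedBall.trans (closedBall_subset_closedBall (by linarith))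
  rw [measure_sdiff hb measurableSet_ball.nullMeasurableSet measure_ball_lt_top.ne,
    volume_closedBall_eq _ (by linarith), volume_ball_eq _ (by linarith),
    ← ENNReal.ofReal_sub _ (by have := Real.pi_pos; positivity)]
  apply ENNReal.ofReal_le_ofReal
  apply le_of_eq
  ring

variable {P Q : ℂ[X]}

/-- **Exceptional parameters.** -/
theorem volume_exceptional_le (h : IsCoprime P Q) (hD : 0 < max P.natDegree Q.natDegree) :
    ∃ n₀ : ℕ, ∀ n ≥ n₀,
      (∀ c : ℂ, (∀ v ∈ freeValues P Q, 2048 * Real.log n / n < |‖c + v‖ - 1|) →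
        volume (planarJulia (powFamily P Q n c)) = 0) ∧
      volume {c : ℂ | volume (planarJulia (powFamily P Q n c)) ≠ 0} ≤
        ENNReal.ofReal (10 ^ 5 * (max P.natDegree Q.natDegree : ℕ) * Real.log n / n) := by
  obtain ⟨R₀, hR₀⟩ := volume_zero_large h hD
  obtain ⟨V, hV, hVcard⟩ := exists_finset_freeValues h hD
  set D : ℕ := max P.natDegree Q.natDegree with hDdef
  have hlim0 : Tendsto (fun n : ℕ => Real.log n / n) atTop (𝓝 0) := by
    have := Real.isLittleO_log_id_atTop.tendsto_div_nhds_zero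
    exact this.comp tendsto_natCast_atTop_atTop
  have e0 : ∀ᶠ n : ℕ in atTop, Real.log n / n < 1 / 2048 :=
    hlim0.eventually_lt_const (by norm_num)
  obtain ⟨n₀, hn₀⟩ := ((volume_zero_annulus h R₀).and
    (e0.and (eventually_ge_atTop 2))).exists_forall_of_atTop
  refine ⟨n₀, fun n hn => ?_⟩
  obtain ⟨h1, h2, h3⟩ := hn₀ n hn
  have hgood : ∀ c : ℂ, (∀ v ∈ freeValues P Q, 2048 * Real.log n / n < |‖c + v‖ - 1|) →
      volume (planarJulia (powFamily P Q n c)) = 0 := by
    intro c hc
    rcases le_total ‖c‖ R₀ with hle | hle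
    · exact h1 c hle fun v hv => (hc v hv).le
    · exact hR₀ n h3 c hle
  refine ⟨hgood, ?_⟩
  have hn' : (2 : ℝ) ≤ n := by exact_mod_cast h3
  have hlog : 0 ≤ Real.log n := Real.log_nonneg (by linarith)
  set η : ℝ := 2048 * Real.log n / n with hη
  have hη0 : 0 ≤ η := by positivity
  have hη1 : η ≤ 1 := by
    rw [hη, mul_div_assoc]; linarith
  have hsub : {c : ℂ | volume (planarJulia (powFamily P Q n c)) ≠ 0} ⊆
      ⋃ v ∈ V, {c : ℂ | |‖c + v‖ - 1| ≤ η} := by
    intro c hc
    by_contra hcon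
    apply hc
    apply hgood c
    intro v hv
    by_contra hle
    rw [not_lt] at hle
    apply hcon
    simp only [mem_iUnion]
    exact ⟨v, hV hv, hle⟩
  have hpi := Real.pi_pos
  have hpi2 := Real.pi_lt_d4
  calc volume {c : ℂ | volume (planarJulia (powFamily P Q n c)) ≠ 0}
      ≤ volume (⋃ v ∈ V, {c : ℂ | |‖c + v‖ - 1| ≤ η}) := measure_mono hsub
    _ ≤ ∑ v ∈ V, volume {c : ℂ | |‖c + v‖ - 1| ≤ η} := measure_biUnion_finset_le _ _
    _ ≤ ∑ v ∈ V, ENNReal.ofReal (4 * Real.pi * η) :=
        Finset.sum_le_sum fun v _ => volume_thin_annulus v hη0 hη1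
    _ = ENNReal.ofReal (V.card * (4 * Real.pi * η)) := by
        rw [Finset.sum_const, nsmul_eq_mul, ← ENNReal.ofReal_natCast,
          ← ENNReal.ofReal_mul (by positivity)]
    _ ≤ ENNReal.ofReal (10 ^ 5 * D * Real.log n / n) := by
        apply ENNReal.ofReal_le_ofReal
        have hcard : (V.card : ℝ) ≤ 3 * D := by
          have : V.card ≤ 3 * D := by omega
          exact_mod_cast this
        have hD0 : (0 : ℝ) ≤ D := by positivity
        have hq : 0 ≤ Real.log n / n := by positivity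
        calc (V.card : ℝ) * (4 * Real.pi * η) ≤ 3 * D * (4 * Real.pi * η) := by gcongr
          _ = (24576 * Real.pi) * D * (Real.log n / n) := by rw [hη]; ring
          _ ≤ 10 ^ 5 * D * (Real.log n / n) := by gcongr; nlinarith
          _ = _ := by ring

end Pool.Agent.helper98.Rat
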