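import Pool.Agent.helper98.Rat.Defs

/-!
# Homogeneous lifts of rational maps
-/

set_option autoImplicit false

open Polynomial Topology Filter MeasureTheory Set

namespace Pool.Agent.helper98.Rat

/-- The homogenization of `P` of degree `D`. -/
noncomputable def hom (D : ℕ) (P : ℂ[X]) (x y : ℂ) : ℂ :=
  ∑ i ∈ Finset.range (D + 1), P.coeff i * x ^ i * y ^ (D - i)

lemma hom_of_ne {D : ℕ} {P : ℂ[X]} (hD : P.natDegree ≤ D) {x y : ℂ} (hy : y ≠ 0) :
    hom D P x y = y ^ D * P.eval (x / y) := by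
  rw [Polynomial.eval_eq_sum_range' (Nat.lt_succ_of_le hD), Finset.mul_sum]
  unfold hom
  apply Finset.sum_congr rfl
  intro i hi
  have hi' : i ≤ D := by have := Finset.mem_range.1 hi; omega
  have h1 : y ^ D = y ^ (D - i) * y ^ i := by rw [← pow_add]; congr 1; omega
  rw [h1, div_pow]
  field_simp

lemma hom_zero_right (D : ℕ) (P : ℂ[X]) (x : ℂ) : hom D P x 0 = P.coeff D * x ^ D := by
  unfold hom
  rw [Finset.sum_eq_single D]
  · simp
  · intro i hi hne
    have : D - i ≠ 0 := by have := Finset.mem_range.1 hi; omega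
    simp [this]
  · intro h; exact absurd (Finset.mem_range.2 (Nat.lt_succ_self D)) h

lemma hom_one_right {D : ℕ} {P : ℂ[X]} (hD : P.natDegree ≤ D) (x : ℂ) :
    hom D P x 1 = P.eval x := by
  rw [hom_of_ne hD one_ne_zero]; simp

lemma hom_differentiableOn {D : ℕ} {P : ℂ[X]} {a b : ℂ → ℂ} {s : Set ℂ}
    (ha : DifferentiableOn ℂ a s) (hb : DifferentiableOn ℂ b s) :
    DifferentiableOn ℂ (fun z => hom D P (a z) (b z)) s := by
  unfold hom
  fun_prop

lemma hom_continuous {D : ℕ} {P : ℂ[X]} {α : Type*} [TopologicalSpace α] {a b : α → ℂ}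
    (ha : Continuous a) (hb : Continuous b) :
    Continuous (fun z => hom D P (a z) (b z)) := by
  unfold hom
  fun_prop

lemma mk_mul {s : ℂ} (hs : s ≠ 0) (p q : ℂ) : mk (s * p) (s * q) = mk p q := by
  unfold mk
  by_cases hq : q = 0
  · simp [hq]
  · simp only [hq, mul_eq_zero, hs, or_self, if_false]
    congr 1
    field_simp

@[simp] lemma mk_of_zero (p : ℂ) : mk p 0 = OnePoint.infty := by simp [mk]

lemma mk_of_ne {q : ℂ} (hq : q ≠ 0) (p : ℂ) : mk p q = OnePoint.some (p / q) := by simp [mk, hq]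

@[simp] lemma mk_one_right (p : ℂ) : mk p 1 = OnePoint.some p := by simp [mk]

lemma mk_eq_some {p q y : ℂ} (h : mk p q = OnePoint.some y) : q ≠ 0 ∧ p = y * q := by
  by_cases hq : q = 0
  · subst hq; simp at h
  · rw [mk_of_ne hq] at h
    refine ⟨hq, ?_⟩
    have := OnePoint.coe_injective h
    rw [← this]; field_simp

/-- The degree of the pair. -/
noncomputable def dg (P Q : ℂ[X]) : ℕ := max P.natDegree Q.natDegree

lemma ratMap_some (P Q : ℂ[X]) (z : ℂ) :
    ratMap P Q (OnePoint.some z) = mk (P.eval z) (Q.eval z) := rfl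

lemma ratMap_infty (P Q : ℂ[X]) :
    ratMap P Q OnePoint.infty = mk (P.coeff (dg P Q)) (Q.coeff (dg P Q)) := rfl

/-- No common zeros on the sphere. -/
structure Reduced (P Q : ℂ[X]) : Prop where
  fin : ∀ z : ℂ, P.eval z ≠ 0 ∨ Q.eval z ≠ 0
  top : P.coeff (dg P Q) ≠ 0 ∨ Q.coeff (dg P Q) ≠ 0

lemma reduced_of_isCoprime {P Q : ℂ[X]} (h : IsCoprime P Q) : Reduced P Q where
  fin := by
    intro z
    by_contra hcon
    rw [not_or, not_not, not_not] at hcon
    obtain ⟨a, b, hab⟩ := h
    have := congrArg (Polynomial.eval z) hab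
    simp [hcon.1, hcon.2] at this
  top := by
    by_contra hcon
    rw [not_or, not_not, not_not] at hcon
    have hne : P ≠ 0 ∨ Q ≠ 0 := by
      by_contra h'
      rw [not_or, not_not, not_not] at h'
      rw [h'.1, h'.2] at h
      exact not_isCoprime_zero_zero h
    rcases le_total P.natDegree Q.natDegree with hle | hle
    · have hd : dg P Q = Q.natDegree := max_eq_right hle
      rw [hd] at hcon
      have hQ : Q = 0 := by
        rw [← Polynomial.leadingCoeff_eq_zero]; exact hcon.2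
      have hP : P ≠ 0 := by tauto
      rw [hQ] at hle hcon
      have h0 : P.natDegree = 0 := by simpa using hle
      have : P.coeff 0 = P.leadingCoeff := by rw [Polynomial.leadingCoeff, h0]
      apply hP
      rw [← Polynomial.leadingCoeff_eq_zero, ← this]
      simpa using hcon.1
    · have hd : dg P Q = P.natDegree := max_eq_left hle
      rw [hd] at hcon
      have hP : P = 0 := by
        rw [← Polynomial.leadingCoeff_eq_zero]; exact hcon.1
      have hQ : Q ≠ 0 := by tauto
      rw [hP] at hle hcon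
      have h0 : Q.natDegree = 0 := by simpa using hle
      have : Q.coeff 0 = Q.leadingCoeff := by rw [Polynomial.leadingCoeff, h0]
      apply hQ
      rw [← Polynomial.leadingCoeff_eq_zero, ← this]
      simpa using hcon.2

/-- The homogeneous lift of the rational map. -/
noncomputable def hl (P Q : ℂ[X]) (u : ℂ × ℂ) : ℂ × ℂ :=
  (hom (dg P Q) P u.1 u.2, hom (dg P Q) Q u.1 u.2)

lemma hl_spec {P Q : ℂ[X]} (h : Reduced P Q) {u : ℂ × ℂ} (hu : u.1 ≠ 0 ∨ u.2 ≠ 0) :
    mk (hl P Q u).1 (hl P Q u).2 = ratMap P Q (mk u.1 u.2) ∧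
      ((hl P Q u).1 ≠ 0 ∨ (hl P Q u).2 ≠ 0) := by
  by_cases hy : u.2 = 0
  · have hx : u.1 ≠ 0 := by tauto
    simp only [hl, hy, hom_zero_right, mk_of_zero, ratMap_infty]
    constructor
    · rw [mul_comm _ (u.1 ^ dg P Q), mul_comm _ (u.1 ^ dg P Q), mk_mul (pow_ne_zero _ hx)]
    · rcases h.top with h1 | h1
      · exact Or.inl (mul_ne_zero h1 (pow_ne_zero _ hx))
      · exact Or.inr (mul_ne_zero h1 (pow_ne_zero _ hx))
  · have h1 : P.natDegree ≤ dg P Q := le_max_left _ _
    have h2 : Q.natDegree ≤ dg P Q := le_max_right _ _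
    simp only [hl, hom_of_ne h1 hy, hom_of_ne h2 hy]
    constructor
    · rw [mk_mul (pow_ne_zero _ hy), mk_of_ne hy, ratMap_some]
    · rcases h.fin (u.1 / u.2) with h3 | h3
      · exact Or.inl (mul_ne_zero (pow_ne_zero _ hy) h3)
      · exact Or.inr (mul_ne_zero (pow_ne_zero _ hy) h3)

lemma hl_iterate {P Q : ℂ[X]} (h : Reduced P Q) (z : ℂ) (k : ℕ) :
    mk ((hl P Q)^[k] (z, 1)).1 ((hl P Q)^[k] (z, 1)).2 = (ratMap P Q)^[k] (OnePoint.some z) ∧
      (((hl P Q)^[k] (z, 1)).1 ≠ 0 ∨ ((hl P Q)^[k] (z, 1)).2 ≠ 0) := by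
  induction k with
  | zero => simp
  | succ k ih =>
    rw [Function.iterate_succ_apply', Function.iterate_succ_apply', ← ih.1]
    exact hl_spec h ih.2

lemma hl_iterate_differentiable (P Q : ℂ[X]) (k : ℕ) :
    Differentiable ℂ (fun z : ℂ => ((hl P Q)^[k] (z, 1)).1) ∧
      Differentiable ℂ (fun z : ℂ => ((hl P Q)^[k] (z, 1)).2) := by
  induction k with
  | zero => simp only [Function.iterate_zero, id]; exact ⟨differentiable_id, by fun_prop⟩
  | succ k ih =>
    simp only [Function.iterate_succ_apply', hl]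
    simp only [← differentiableOn_univ] at ih ⊢
    exact ⟨hom_differentiableOn ih.1 ih.2, hom_differentiableOn ih.1 ih.2⟩

end Pool.Agent.helper98.Rat
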