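import Pool.Agent.helper98.Rat.Cont

/-!
# Inverse branches of rational maps on discs
-/

set_option autoImplicit false

open Polynomial Topology Filter MeasureTheory Set Metric

namespace Pool.Agent.helper98.Rat

lemma toPlane_ratMap (P Q : ℂ[X]) (z : ℂ) :
    toPlane (ratMap P Q) z = P.eval z / Q.eval z := by
  rw [toPlane, ratMap_some]
  by_cases h : Q.eval z = 0
  · rw [h, mk_of_zero, div_zero]; rfl
  · rw [mk_of_ne h]; rfl

lemma toPlane_ratMap' (P Q : ℂ[X]) :
    toPlane (ratMap P Q) = fun z => P.eval z / Q.eval z := funext (toPlane_ratMap P Q)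

lemma ratMap_eq_some_toPlane {P Q : ℂ[X]} {z : ℂ} (h : Q.eval z ≠ 0) :
    ratMap P Q (OnePoint.some z) = OnePoint.some (toPlane (ratMap P Q) z) := by
  rw [toPlane_ratMap, ratMap_some, mk_of_ne h]

lemma ratMap_eq_some_iff {P Q : ℂ[X]} {z u : ℂ} :
    ratMap P Q (OnePoint.some z) = OnePoint.some u ↔
      Q.eval z ≠ 0 ∧ toPlane (ratMap P Q) z = u := by
  constructor
  · intro h
    rw [ratMap_some] at h
    have h1 := (mk_eq_some h).1
    refine ⟨h1, ?_⟩
    rw [← ratMap_some, ratMap_eq_some_toPlane h1] at h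
    exact OnePoint.coe_injective h
  · rintro ⟨h1, h2⟩
    rw [ratMap_eq_some_toPlane h1, h2]

lemma analyticAt_toPlane {P Q : ℂ[X]} {z : ℂ} (h : Q.eval z ≠ 0) :
    AnalyticAt ℂ (toPlane (ratMap P Q)) z := by
  rw [toPlane_ratMap']
  have h1 : DifferentiableOn ℂ (fun z => P.eval z / Q.eval z) {z | Q.eval z ≠ 0} := by
    intro w hw
    exact ((P.differentiable w).div (Q.differentiable w) hw).differentiableWithinAt
  have hopen : IsOpen {z : ℂ | Q.eval z ≠ 0} := isOpen_ne_fun Q.continuous continuous_const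
  exact h1.analyticAt (hopen.mem_nhds h)

lemma isLocalHomeomorphOn_comp_coe {P Q : ℂ[X]} {s : Set ℂ}
    (hs : ∀ z ∈ s, Q.eval z ≠ 0 ∧ deriv (toPlane (ratMap P Q)) z ≠ 0) :
    IsLocalHomeomorphOn (ratMap P Q ∘ (OnePoint.some : ℂ → OnePoint ℂ)) s := by
  apply IsLocalHomeomorphOn.mk
  intro z hz
  obtain ⟨hq, hd⟩ := hs z hz
  have hopen : IsOpen {z : ℂ | Q.eval z ≠ 0} := isOpen_ne_fun Q.continuous continuous_const
  have h1 : HasStrictDerivAt (toPlane (ratMap P Q)) (deriv (toPlane (ratMap P Q)) z) z :=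
    (analyticAt_toPlane hq).hasStrictDerivAt
  have h2 := h1.hasStrictFDerivAt_equiv hd
  let e1 := h2.toOpenPartialHomeomorph (toPlane (ratMap P Q))
  let e2 := e1.restrOpen {z : ℂ | Q.eval z ≠ 0} hopen
  let e3 := OnePoint.isOpenEmbedding_coe.toOpenPartialHomeomorph (OnePoint.some : ℂ → OnePoint ℂ)
  refine ⟨e2.trans e3, ?_, ?_⟩
  · rw [OpenPartialHomeomorph.trans_source]
    refine ⟨?_, ?_⟩
    · rw [OpenPartialHomeomorph.restrOpen_source]
      exact ⟨h2.mem_toOpenPartialHomeomorph_source, hq⟩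
    · simp [e3]
  · intro w hw
    rw [OpenPartialHomeomorph.trans_source] at hw
    have hw1 := hw.1
    rw [OpenPartialHomeomorph.restrOpen_source] at hw1
    have hw2 : Q.eval w ≠ 0 := hw1.2
    show ratMap P Q (OnePoint.some w) = _
    rw [ratMap_eq_some_toPlane hw2]
    rfl

/-- A rational map is a covering over a set which omits the critical values and the value at
infinity. -/
lemma isCoveringMapOn {P Q : ℂ[X]} (h : Reduced P Q) {B : Set ℂ}
    (hinf : ∀ u ∈ B, ratMap P Q OnePoint.infty ≠ OnePoint.some u)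
    (hd : ∀ z u, u ∈ B → ratMap P Q (OnePoint.some z) = OnePoint.some u →
      deriv (toPlane (ratMap P Q)) z ≠ 0) :
    IsCoveringMapOn (ratMap P Q) ((OnePoint.some : ℂ → OnePoint ℂ) '' B) := by
  apply IsCoveringMapOn.of_isLocalHomeomorphOn (continuous_ratMap h)
  have h1 : ratMap P Q ⁻¹' ((OnePoint.some : ℂ → OnePoint ℂ) '' B) =
      (OnePoint.some : ℂ → OnePoint ℂ) ''
        {z | ∃ u ∈ B, ratMap P Q (OnePoint.some z) = OnePoint.some u} := by
    ext Z
    constructor
    · rintro ⟨u, hu, hZ⟩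
      induction Z using OnePoint.rec with
      | coe z => exact ⟨z, ⟨u, hu, hZ.symm⟩, rfl⟩
      | infty => exact absurd hZ.symm (hinf u hu)
    · rintro ⟨z, ⟨u, hu, hz⟩, rfl⟩
      exact ⟨u, hu, hz.symm⟩
  rw [h1]
  apply IsLocalHomeomorphOn.of_comp_right
  · apply isLocalHomeomorphOn_comp_coe
    rintro z ⟨u, hu, hz⟩
    exact ⟨(ratMap_eq_some_iff.1 hz).1, hd z u hu hz⟩
  · exact OnePoint.isOpenEmbedding_coe.isLocalHomeomorph.isLocalHomeomorphOn

/-- Inverse branches on discs. -/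
theorem exists_inverse {P Q : ℂ[X]} (h : Reduced P Q) {y : ℂ} {r : ℝ} (hr : 0 < r)
    (hinf : ∀ u ∈ ball y r, ratMap P Q OnePoint.infty ≠ OnePoint.some u)
    (hd : ∀ z u, u ∈ ball y r → ratMap P Q (OnePoint.some z) = OnePoint.some u →
      deriv (toPlane (ratMap P Q)) z ≠ 0)
    {z₀ : ℂ} (hz₀ : ratMap P Q (OnePoint.some z₀) = OnePoint.some y) :
    ∃ g : ℂ → ℂ, DifferentiableOn ℂ g (ball y r) ∧ g y = z₀ ∧
      ∀ u ∈ ball y r, ratMap P Q (OnePoint.some (g u)) = OnePoint.some u ∧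
        deriv (toPlane (ratMap P Q)) (g u) * deriv g u = 1 := by
  have hcov := isCoveringMapOn h hinf hd
  have hy : y ∈ ball y r := mem_ball_self hr
  have : ContractibleSpace (ball y r) := contractibleSpace_ball hr
  have : LocallyPathConnectedSpace (ball y r) := isOpen_ball.locallyPathConnectedSpace
  let f : C(ball y r, OnePoint ℂ) :=
    ⟨fun u => OnePoint.some (u : ℂ), OnePoint.continuous_coe.comp continuous_subtype_val⟩
  obtain ⟨G, ⟨hG1, hG2⟩, -⟩ := hcov.existsUnique_continuousMap_lifts f (a₀ := ⟨y, hy⟩)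
    (e₀ := OnePoint.some z₀) hz₀ (fun a => ⟨a, a.2, rfl⟩)
  have hG3 : ∀ u (hu : u ∈ ball y r), ratMap P Q (G ⟨u, hu⟩) = OnePoint.some u := fun u hu =>
    congrFun hG2 ⟨u, hu⟩
  have hGne : ∀ u (hu : u ∈ ball y r), G ⟨u, hu⟩ ≠ OnePoint.infty := by
    intro u hu hcon
    have := hG3 u hu
    rw [hcon] at this
    exact hinf u hu this
  classical
  set g : ℂ → ℂ := fun u => if hu : u ∈ ball y r then (G ⟨u, hu⟩).elim 0 id else 0 with hg
  have hgG : ∀ u (hu : u ∈ ball y r), OnePoint.some (g u) = G ⟨u, hu⟩ := by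
    intro u hu
    obtain ⟨x, hx⟩ := OnePoint.ne_infty_iff_exists.1 (hGne u hu)
    simp only [hg, hu, dif_pos]
    rw [← hx]
    rfl
  have hgF : ∀ u ∈ ball y r, ratMap P Q (OnePoint.some (g u)) = OnePoint.some u := by
    intro u hu
    rw [hgG u hu]; exact hG3 u hu
  have hcont : ContinuousOn g (ball y r) := by
    rw [OnePoint.isOpenEmbedding_coe.isInducing.continuousOn_iff]
    rw [continuousOn_iff_continuous_domRestrict]
    have h1 : (ball y r).domRestrict ((OnePoint.some : ℂ → OnePoint ℂ) ∘ g) = G := by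
      funext u
      exact hgG u.1 u.2
    show Continuous ((ball y r).domRestrict ((OnePoint.some : ℂ → OnePoint ℂ) ∘ g))
    rw [h1]
    exact G.continuous
  have hder : ∀ u ∈ ball y r, HasDerivAt g (deriv (toPlane (ratMap P Q)) (g u))⁻¹ u := by
    intro u hu
    have hq := (ratMap_eq_some_iff.1 (hgF u hu)).1
    refine HasDerivAt.of_local_left_inverse (hcont.continuousAt (isOpen_ball.mem_nhds hu))
      (analyticAt_toPlane hq).differentiableAt.hasDerivAt (hd (g u) u hu (hgF u hu)) ?_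
    filter_upwards [isOpen_ball.mem_nhds hu] with v hv
    exact (ratMap_eq_some_iff.1 (hgF v hv)).2
  refine ⟨g, fun u hu => (hder u hu).differentiableAt.differentiableWithinAt, ?_, ?_⟩
  · apply OnePoint.coe_injective
    rw [hgG y hy]; exact hG1
  · intro u hu
    refine ⟨hgF u hu, ?_⟩
    rw [(hder u hu).deriv]
    exact mul_inv_cancel₀ (hd (g u) u hu (hgF u hu))

end Pool.Agent.helper98.Rat
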